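import Pool.Agent.Helper4.Star

/-!
Finite rings `F_{2^a} × F_{3^b}`: their orders are multiplicatively dense.
-/

namespace Pool.Agent.Helper4.Turan

open Finset
open scoped Classical

/-- the ratio `3^53/2^84 ≈ 1.00209` -/
noncomputable def rho : ℝ := 3 ^ 53 / 2 ^ 84

lemma rho_gt : 1 + 209 / 100000 ≤ rho := by
  unfold rho; norm_num

lemma rho_lt : rho ≤ 1 + 2091 / 1000000 := by
  unfold rho; norm_num

lemma two_le_rho_pow : (2 : ℝ) ≤ rho ^ 480 := by
  have h1 : (1 : ℝ) + 209 / 100000 ≤ rho := rho_gt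
  have h2 := one_add_mul_le_pow (a := (209 / 100000 : ℝ)) (by norm_num) 480
  have h3 : (1 + 209 / 100000 : ℝ) ^ 480 ≤ rho ^ 480 := pow_le_pow_left₀ (by norm_num) h1 480
  have h4 : (2 : ℝ) ≤ 1 + ((480 : ℕ) : ℝ) * (209 / 100000) := by norm_num
  exact h4.trans (h2.trans h3)

lemma exists_smooth {N : ℕ} (hN : N = 84 * 480 + 20) {x : ℝ} (hx : 2 ^ N * 3 ^ 20 ≤ x) :
    ∃ a b : ℕ, 20 ≤ a ∧ 20 ≤ b ∧ x ≤ 2 ^ a * 3 ^ b ∧ (2 : ℝ) ^ a * 3 ^ b ≤ rho * x := by
  have h3 : (0 : ℝ) < 3 ^ 20 := by positivity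
  have hx1 : (1 : ℝ) ≤ x / 3 ^ 20 := by
    rw [le_div_iff₀ h3, one_mul]
    refine le_trans ?_ hx
    have : (1 : ℝ) ≤ 2 ^ N := one_le_pow₀ (by norm_num)
    nlinarith
  obtain ⟨a0, ha1, ha2⟩ := exists_nat_pow_near hx1 (by norm_num : (1 : ℝ) < 2)
  have ha0 : N ≤ a0 := by
    by_contra hcon
    push Not at hcon
    have h5 : (2 : ℝ) ^ (a0 + 1) ≤ 2 ^ N :=
      pow_le_pow_right₀ (by norm_num) (by omega)
    have h6 : x / 3 ^ 20 < 2 ^ N := lt_of_lt_of_le ha2 h5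
    rw [div_lt_iff₀ h3] at h6
    linarith
  set q0 : ℝ := 2 ^ a0 * 3 ^ 20 with hq0
  have hq0pos : 0 < q0 := by positivity
  have hy1 : (1 : ℝ) ≤ x / q0 := by
    rw [le_div_iff₀ hq0pos, one_mul, hq0]
    rw [le_div_iff₀ h3] at ha1
    exact ha1
  have hy2 : x / q0 < 2 := by
    rw [div_lt_iff₀ hq0pos, hq0]
    rw [div_lt_iff₀ h3, pow_succ] at ha2
    linarith
  have hrho1 : (1 : ℝ) < rho := by have := rho_gt; linarith
  obtain ⟨t, ht1, ht2⟩ := exists_nat_pow_near hy1 hrho1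
  have ht : t < 480 := by
    by_contra hcon
    push Not at hcon
    have h7 : rho ^ 480 ≤ rho ^ t := pow_le_pow_right₀ hrho1.le hcon
    have h8 := two_le_rho_pow
    linarith
  have hform : (2 : ℝ) ^ (a0 - 84 * (t + 1)) * 3 ^ (20 + 53 * (t + 1)) = q0 * rho ^ (t + 1) := by
    have e1 : (2 : ℝ) ^ a0 = 2 ^ (a0 - 84 * (t + 1)) * (2 ^ 84) ^ (t + 1) := by
      have e0 : a0 = (a0 - 84 * (t + 1)) + 84 * (t + 1) := by omega
      have e01 : (2 : ℝ) ^ a0 = 2 ^ ((a0 - 84 * (t + 1)) + 84 * (t + 1)) :=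
        congrArg (fun k => (2 : ℝ) ^ k) e0
      rw [e01, pow_add, pow_mul]
    have e2 : (3 : ℝ) ^ (20 + 53 * (t + 1)) = 3 ^ 20 * (3 ^ 53) ^ (t + 1) := by
      rw [pow_add, pow_mul]
    have e3 : rho ^ (t + 1) * (2 ^ 84) ^ (t + 1) = (3 ^ 53 : ℝ) ^ (t + 1) := by
      have e4 : rho * 2 ^ 84 = 3 ^ 53 := by
        unfold rho
        exact div_mul_cancel₀ _ (by positivity)
      rw [← mul_pow, e4]
    rw [hq0, e1, e2, ← e3]; ring
  refine ⟨a0 - 84 * (t + 1), 20 + 53 * (t + 1), by omega, by omega, ?_, ?_⟩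
  · rw [hform]
    rw [div_lt_iff₀ hq0pos] at ht2
    linarith
  · rw [hform, pow_succ]
    rw [le_div_iff₀ hq0pos] at ht1
    have : 0 < rho := by linarith
    nlinarith

/-- rings with the dependency property, with order in a narrow window and few non-units -/
lemma exists_ring {N : ℕ} (hN : N = 84 * 480 + 20) {x : ℝ} (hx : 2 ^ N * 3 ^ 20 ≤ x) :
    ∃ (R : Type) (_ : CommRing R) (_ : Fintype R), Nontrivial R ∧ Star R ∧
      x ≤ (Fintype.card R : ℝ) ∧ (Fintype.card R : ℝ) ≤ rho * x ∧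
      (Fintype.card R : ℝ) / (Fintype.card Rˣ : ℝ) ≤ 1000002 / 1000000 := by
  obtain ⟨a, b, ha, hb, h1, h2⟩ := exists_smooth hN hx
  have : Fact (Nat.Prime 2) := ⟨Nat.prime_two⟩
  have : Fact (Nat.Prime 3) := ⟨Nat.prime_three⟩
  let _ : Fintype (GaloisField 2 a) := Fintype.ofFinite _
  let _ : Fintype (GaloisField 3 b) := Fintype.ofFinite _
  have c2 : Fintype.card (GaloisField 2 a) = 2 ^ a := by
    rw [← Nat.card_eq_fintype_card]; exact GaloisField.card 2 a (by omega)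
  have c3 : Fintype.card (GaloisField 3 b) = 3 ^ b := by
    rw [← Nat.card_eq_fintype_card]; exact GaloisField.card 3 b (by omega)
  refine ⟨GaloisField 2 a × GaloisField 3 b, inferInstance, inferInstance, inferInstance,
    (star_field _).prod (star_field _), ?_, ?_, ?_⟩
  · rw [Fintype.card_prod, c2, c3]; push_cast; exact h1
  · rw [Fintype.card_prod, c2, c3]; push_cast; exact h2
  · have cu : Fintype.card (GaloisField 2 a × GaloisField 3 b)ˣ = (2 ^ a - 1) * (3 ^ b - 1) := by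
      rw [Fintype.card_congr (MulEquiv.prodUnits.toEquiv), Fintype.card_prod, Fintype.card_units,
        Fintype.card_units, c2, c3]
    rw [Fintype.card_prod, c2, c3]
    have h2a : (2 : ℝ) ^ 20 ≤ 2 ^ a := pow_le_pow_right₀ (by norm_num) ha
    have h3b : (3 : ℝ) ^ 20 ≤ 3 ^ b := pow_le_pow_right₀ (by norm_num) hb
    have hcu : ((Fintype.card (GaloisField 2 a × GaloisField 3 b)ˣ : ℕ) : ℝ) =
        ((2 : ℝ) ^ a - 1) * (3 ^ b - 1) := by
      rw [cu, Nat.cast_mul, Nat.cast_sub (Nat.one_le_pow _ _ (by norm_num)),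
        Nat.cast_sub (Nat.one_le_pow _ _ (by norm_num))]
      push_cast; ring
    have hcast : ((2 ^ a * 3 ^ b : ℕ) : ℝ) = (2 : ℝ) ^ a * 3 ^ b := by push_cast; ring
    rw [hcast]
    have key : ∀ c : ℕ, (c : ℝ) = ((2 : ℝ) ^ a - 1) * (3 ^ b - 1) →
        (2 : ℝ) ^ a * 3 ^ b / (c : ℝ) ≤ 1000002 / 1000000 := by
      intro c hc
      rw [hc]
      set A : ℝ := (2 : ℝ) ^ a
      set B : ℝ := (3 : ℝ) ^ b
      have hA : (1000000 : ℝ) ≤ A := by
        have : (1000000 : ℝ) ≤ 2 ^ 20 := by norm_num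
        linarith
      have hB : (1000000000 : ℝ) ≤ B := by
        have : (1000000000 : ℝ) ≤ 3 ^ 20 := by norm_num
        linarith
      have hpos : 0 < (A - 1) * (B - 1) := mul_pos (by linarith) (by linarith)
      rw [div_le_div_iff₀ hpos (by norm_num)]
      have hA' : 0 ≤ A - 1000000 := by linarith
      have hB' : 0 ≤ B - 1000000000 := by linarith
      nlinarith [mul_nonneg hA' hB']
    convert key _ hcu using 3
    exact @Fintype.card_congr _ _ (_) (_) (Equiv.refl _)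

end Pool.Agent.Helper4.Turan
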