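import Pool.Agent.Helper4.Base
import Pool.Agent.Helper4.Rings

/-!
Asymptotic analysis of the recursion.
-/

namespace Pool.Agent.Helper4.Turan

open Finset Filter Topology
open scoped Classical

/-- densities of small systems -/
noncomputable def tab : ℕ → ℝ
  | 0 => 1
  | 1 => 1
  | 2 => 1 / 2
  | 3 => 4 / 9
  | 4 => 5 / 16
  | 5 => 5 / 16
  | 6 => 17 / 64
  | 7 => 17 / 64
  | _ => 65 / 256

lemma tab_tail {j : ℕ} (hj : 8 ≤ j) : tab j = 65 / 256 := by
  match j, hj with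
  | (k + 8), _ => rfl

lemma achieves_tab (j : ℕ) : Achieves j (tab j) := by
  match j with
  | 0 => exact achieves_one 0
  | 1 => exact achieves_one 1
  | 2 => exact achieves_two
  | 3 => exact achieves_three
  | 4 => exact achieves_four
  | 5 => exact achieves_four.succ
  | 6 => exact achieves_six
  | 7 => exact achieves_six.succ
  | (k + 8) => exact achieves_eight.of_le (by omega)

lemma tab_ge (j : ℕ) : 65 / 256 ≤ tab j := by
  match j with
  | 0 => norm_num [tab]
  | 1 => norm_num [tab]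
  | 2 => norm_num [tab]
  | 3 => norm_num [tab]
  | 4 => norm_num [tab]
  | 5 => norm_num [tab]
  | 6 => norm_num [tab]
  | 7 => norm_num [tab]
  | (k + 8) => exact (tab_tail (by omega)).ge

lemma choose_bound {r j : ℕ} (hj : j < 8) (hjr : j ≤ r) {p T : ℝ} (hp0 : 0 ≤ p) (hp1 : p ≤ 1)
    (hT : p * (r + 1) ≤ T) :
    (r.choose j : ℝ) * (p ^ j * (1 - p) ^ (r - j)) ≤
      T ^ j / (j.factorial : ℝ) * Real.exp (-(p * (r + 1)) + 8 * p) := by
  have h1 : (r.choose j : ℝ) * p ^ j ≤ T ^ j / (j.factorial : ℝ) := by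
    have h2 : (r.choose j : ℝ) ≤ (r : ℝ) ^ j / (j.factorial : ℝ) := Nat.choose_le_pow_div j r
    calc (r.choose j : ℝ) * p ^ j ≤ (r : ℝ) ^ j / (j.factorial : ℝ) * p ^ j :=
          mul_le_mul_of_nonneg_right h2 (pow_nonneg hp0 _)
      _ = (p * r) ^ j / (j.factorial : ℝ) := by rw [mul_pow]; ring
      _ ≤ T ^ j / (j.factorial : ℝ) := by
          refine div_le_div_of_nonneg_right ?_ (Nat.cast_nonneg _)
          refine pow_le_pow_left₀ (mul_nonneg hp0 (Nat.cast_nonneg _)) ?_ _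
          nlinarith
  have h3 : (1 - p) ^ (r - j) ≤ Real.exp (-(p * (r + 1)) + 8 * p) := by
    have h4 : 1 - p ≤ Real.exp (-p) := by
      have := Real.add_one_le_exp (-p); linarith
    calc (1 - p) ^ (r - j) ≤ (Real.exp (-p)) ^ (r - j) :=
          pow_le_pow_left₀ (by linarith) h4 _
      _ = Real.exp (((r - j : ℕ) : ℝ) * (-p)) := by rw [Real.exp_nat_mul]
      _ ≤ Real.exp (-(p * (r + 1)) + 8 * p) := by
          refine Real.exp_le_exp.2 ?_
          rw [Nat.cast_sub hjr]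
          have h5 : (j : ℝ) + 1 ≤ 8 := by exact_mod_cast hj
          nlinarith
  have h0 : 0 ≤ (1 - p) ^ (r - j) := pow_nonneg (by linarith) _
  have h00 : 0 ≤ T ^ j / (j.factorial : ℝ) := by
    have : 0 ≤ T := le_trans (mul_nonneg hp0 (by positivity)) hT
    positivity
  calc (r.choose j : ℝ) * (p ^ j * (1 - p) ^ (r - j))
      = ((r.choose j : ℝ) * p ^ j) * (1 - p) ^ (r - j) := by ring
    _ ≤ (T ^ j / (j.factorial : ℝ)) * Real.exp (-(p * (r + 1)) + 8 * p) :=
        mul_le_mul h1 h3 h0 h00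

/-- the constant `W` -/
noncomputable def Wc (T : ℝ) : ℝ := ∑ j ∈ range 8, (tab j - 65 / 256) * (T ^ j / (j.factorial : ℝ))

lemma sum1_le {r : ℕ} (hr : 8 ≤ r) {p T : ℝ} (hp0 : 0 ≤ p) (hp1 : p ≤ 1)
    (hT : p * (r + 1) ≤ T) {t : ℕ → ℝ} (ht : ∀ j, t j ≤ tab j) :
    ∑ j ∈ range r, (r.choose j : ℝ) * (p ^ j * (1 - p) ^ (r - j) * t j) ≤
      65 / 256 + Real.exp (-(p * (r + 1)) + 8 * p) * Wc T := by
  have hb : ∀ j, 0 ≤ (r.choose j : ℝ) * (p ^ j * (1 - p) ^ (r - j)) := fun j =>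
    mul_nonneg (Nat.cast_nonneg _) (mul_nonneg (pow_nonneg hp0 _) (pow_nonneg (by linarith) _))
  have hone : ∑ j ∈ range (r + 1), (r.choose j : ℝ) * (p ^ j * (1 - p) ^ (r - j)) = 1 := by
    have h := add_pow p (1 - p) r
    have h' : p + (1 - p) = 1 := by ring
    rw [h', one_pow] at h
    refine Eq.trans (sum_congr rfl fun j _ => ?_) h.symm
    ring
  have h1 : ∑ j ∈ range r, (r.choose j : ℝ) * (p ^ j * (1 - p) ^ (r - j) * t j) ≤
      ∑ j ∈ range (r + 1), ((65 / 256) * ((r.choose j : ℝ) * (p ^ j * (1 - p) ^ (r - j))) +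
        (tab j - 65 / 256) * ((r.choose j : ℝ) * (p ^ j * (1 - p) ^ (r - j)))) := by
    have h2 : ∑ j ∈ range r, (r.choose j : ℝ) * (p ^ j * (1 - p) ^ (r - j) * t j) ≤
        ∑ j ∈ range r, ((65 / 256) * ((r.choose j : ℝ) * (p ^ j * (1 - p) ^ (r - j))) +
        (tab j - 65 / 256) * ((r.choose j : ℝ) * (p ^ j * (1 - p) ^ (r - j)))) := by
      refine sum_le_sum fun j _ => ?_
      have := mul_le_mul_of_nonneg_left (ht j) (hb j)
      linarith
    refine h2.trans (sum_le_sum_of_subset_of_nonneg ?_ ?_)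
    · exact range_subset_range.2 (by omega)
    · intro j _ _
      have h3 : 0 ≤ tab j - 65 / 256 := by have := tab_ge j; linarith
      have := mul_nonneg h3 (hb j)
      have h4 := hb j
      positivity
  refine h1.trans ?_
  rw [sum_add_distrib, ← mul_sum, hone, mul_one]
  have h5 : ∑ j ∈ range (r + 1), (tab j - 65 / 256) *
      ((r.choose j : ℝ) * (p ^ j * (1 - p) ^ (r - j))) =
      ∑ j ∈ range 8, (tab j - 65 / 256) * ((r.choose j : ℝ) * (p ^ j * (1 - p) ^ (r - j))) := by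
    symm
    refine sum_subset (range_subset_range.2 (by omega)) ?_
    intro j _ hj
    rw [mem_range, not_lt] at hj
    rw [tab_tail hj]; ring
  rw [h5]
  refine add_le_add le_rfl ?_
  unfold Wc
  rw [mul_sum]
  refine sum_le_sum fun j hj => ?_
  rw [mem_range] at hj
  have h3 : 0 ≤ tab j - 65 / 256 := by have := tab_ge j; linarith
  have h6 := choose_bound hj (by omega : j ≤ r) hp0 hp1 hT
  have := mul_le_mul_of_nonneg_left h6 h3
  linarith

lemma sum2_le {r j0 : ℕ} {a b y L : ℝ} (hb : 0 < b) (hb1 : b ≤ 1) (hy : 0 ≤ y) (hya : y ≤ a)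
    (hL : 0 ≤ L) {t : ℕ → ℝ}
    (ht : ∀ j, t j ≤ if j0 ≤ j then L / (j + 1) else 1) :
    ((r : ℝ) + 1) * ∑ j ∈ Ico 1 r, (r.choose j : ℝ) * (b ^ j * y ^ (r - j) * t j) ≤
      ((r : ℝ) + 1) * ∑ j ∈ range j0, (r.choose j : ℝ) * a ^ (r - j) +
        (L / b) * (b + y) ^ (r + 1) := by
  have hb' : ∀ j, 0 ≤ (r.choose j : ℝ) * (b ^ j * y ^ (r - j)) := fun j =>
    mul_nonneg (Nat.cast_nonneg _) (mul_nonneg (pow_nonneg hb.le _) (pow_nonneg hy _))
  have h1 : ∑ j ∈ Ico 1 r, (r.choose j : ℝ) * (b ^ j * y ^ (r - j) * t j) ≤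
      ∑ j ∈ range j0, (r.choose j : ℝ) * a ^ (r - j) +
      ∑ j ∈ range (r + 1), (r.choose j : ℝ) * (b ^ j * y ^ (r - j)) * (L / (j + 1)) := by
    have h2 : ∑ j ∈ Ico 1 r, (r.choose j : ℝ) * (b ^ j * y ^ (r - j) * t j) ≤
        ∑ j ∈ Ico 1 r, ((if j < j0 then (r.choose j : ℝ) * a ^ (r - j) else 0) +
          (r.choose j : ℝ) * (b ^ j * y ^ (r - j)) * (L / (j + 1))) := by
      refine sum_le_sum fun j _ => ?_
      have h3 := mul_le_mul_of_nonneg_left (ht j) (hb' j)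
      have hLj : 0 ≤ (r.choose j : ℝ) * (b ^ j * y ^ (r - j)) * (L / (j + 1)) :=
        mul_nonneg (hb' j) (div_nonneg hL (by positivity))
      by_cases hj : j0 ≤ j
      · rw [if_pos hj] at h3
        rw [if_neg (by omega)]
        linarith
      · rw [if_neg hj] at h3
        rw [if_pos (by omega)]
        have h4 : (r.choose j : ℝ) * (b ^ j * y ^ (r - j)) ≤ (r.choose j : ℝ) * a ^ (r - j) := by
          refine mul_le_mul_of_nonneg_left ?_ (Nat.cast_nonneg _)
          calc b ^ j * y ^ (r - j) ≤ 1 * a ^ (r - j) :=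
                mul_le_mul (pow_le_one₀ hb.le hb1) (pow_le_pow_left₀ hy hya _)
                  (pow_nonneg hy _) zero_le_one
            _ = _ := one_mul _
        linarith
    refine h2.trans ?_
    rw [sum_add_distrib]
    refine add_le_add ?_ ?_
    · rw [← sum_filter]
      refine sum_le_sum_of_subset_of_nonneg ?_ ?_
      · intro j hj
        rw [mem_filter] at hj
        exact mem_range.2 hj.2
      · intro j _ _
        exact mul_nonneg (Nat.cast_nonneg _) (pow_nonneg (hy.trans hya) _)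
    · refine sum_le_sum_of_subset_of_nonneg ?_ ?_
      · intro j hj
        rw [mem_Ico] at hj
        rw [mem_range]; omega
      · intro j _ _
        exact mul_nonneg (hb' j) (div_nonneg hL (by positivity))
  have h5 : ((r : ℝ) + 1) * ∑ j ∈ range (r + 1), (r.choose j : ℝ) * (b ^ j * y ^ (r - j)) *
      (L / (j + 1)) ≤ (L / b) * (b + y) ^ (r + 1) := by
    have h6 : ((r : ℝ) + 1) * ∑ j ∈ range (r + 1), (r.choose j : ℝ) * (b ^ j * y ^ (r - j)) *
        (L / (j + 1)) = (L / b) * ∑ j ∈ range (r + 1),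
          b ^ (j + 1) * y ^ (r + 1 - (j + 1)) * ((r + 1).choose (j + 1) : ℝ) := by
      rw [mul_sum, mul_sum]
      refine sum_congr rfl fun j _ => ?_
      have h7 : ((r + 1 : ℕ) : ℝ) * (r.choose j : ℝ) =
          ((r + 1).choose (j + 1) : ℝ) * ((j + 1 : ℕ) : ℝ) := by
        exact_mod_cast Nat.add_one_mul_choose_eq r j
      have h8 : ((r + 1).choose (j + 1) : ℝ) = ((r : ℝ) + 1) * (r.choose j : ℝ) / ((j : ℝ) + 1) := by
        rw [eq_div_iff (by positivity)]
        push_cast at h7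
        linarith
      have h9 : r + 1 - (j + 1) = r - j := by omega
      rw [h8, h9, pow_succ]
      field_simp
    rw [h6]
    refine mul_le_mul_of_nonneg_left ?_ (div_nonneg hL hb.le)
    rw [add_pow b y (r + 1), sum_range_succ' _ (r + 1)]
    have h10 : 0 ≤ b ^ 0 * y ^ (r + 1 - 0) * ((r + 1).choose 0 : ℝ) := by positivity
    linarith
  have h11 : 0 ≤ (r : ℝ) + 1 := by positivity
  have h12 := mul_le_mul_of_nonneg_left h1 h11
  rw [mul_add] at h12
  linarith

/-- the error terms -/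
noncomputable def Er (a b : ℝ) (r : ℕ) : ℝ := ((r : ℝ) + 1) * (a ^ r + b ^ r)

/-- the error terms -/
noncomputable def Gr (a : ℝ) (j0 r : ℕ) : ℝ :=
  ((r : ℝ) + 1) * ∑ j ∈ range j0, (r.choose j : ℝ) * a ^ (r - j)

/-- the bound -/
noncomputable def Bnd (a b T T2 kap : ℝ) (j0 : ℕ) (L : ℝ) (r : ℕ) : ℝ :=
  Er a b r + kap * ((T / a) * (65 / 256 + Real.exp (-T2 + 8 * (T / ((r : ℝ) + 1))) * Wc T)) +
    kap * (Gr a j0 r + (L / b) * Real.exp (-T2))

lemma Wc_nonneg {T : ℝ} (hT : 0 ≤ T) : 0 ≤ Wc T := by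
  unfold Wc
  refine sum_nonneg fun j _ => ?_
  have h3 : 0 ≤ tab j - 65 / 256 := by have := tab_ge j; linarith
  positivity

lemma step {a b T T2 : ℝ} (ha : 0 < a) (hb : 0 < b) (hab : a + b = 1) (hT : 0 < T)
    (hT2 : T2 ≤ T / rho) {N : ℕ} (hN : N = 84 * 480 + 20) {r j0 : ℕ} {L : ℝ}
    (hr : 2 ^ N * 3 ^ 20 ≤ a * (r + 1) / T) (hr8 : 8 ≤ r) (hL : 0 ≤ L)
    (h : ∀ j < r, j0 ≤ j → Achieves j (L / (j + 1))) :
    Achieves r (Bnd a b T T2 (1000002 / 1000000) j0 L r / (r + 1)) := by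
  obtain ⟨R, _, _, hnt, hstar, hQ1, hQ2, hQu⟩ := exists_ring hN hr
  set Q : ℝ := (Fintype.card R : ℝ) with hQdef
  set u : ℝ := (Fintype.card Rˣ : ℝ) with hudef
  set kap : ℝ := 1000002 / 1000000 with hkap
  have hQn : 1 ≤ Fintype.card R := Fintype.card_pos
  have hQ : 0 < Q := by rw [hQdef]; exact_mod_cast hQn
  have hu : 0 < u := by rw [hudef]; exact_mod_cast Fintype.card_pos
  have hQge : 1 ≤ Q := by rw [hQdef]; exact_mod_cast hQn
  have hrpos : (0 : ℝ) < (r : ℝ) + 1 := by positivity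
  have ha1 : a ≤ 1 := by linarith
  have hb1 : b ≤ 1 := by linarith
  have hrho : 0 < rho := by have := rho_gt; linarith
  -- the function t
  set t : ℕ → ℝ := fun j => min (tab j) (if j0 ≤ j then L / (j + 1) else 1) with ht
  have ht0 : ∀ j, 0 ≤ t j := by
    intro j
    simp only [ht]
    refine le_min ?_ ?_
    · have := tab_ge j; linarith
    · split_ifs
      · positivity
      · norm_num
  have htA : ∀ j < r, Achieves j (t j) := by
    intro j hj
    simp only [ht]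
    rcases min_choice (tab j) (if j0 ≤ j then L / ((j : ℝ) + 1) else 1) with h1 | h1
    · rw [h1]; exact achieves_tab j
    · rw [h1]
      split_ifs with h2
      · exact h j hj h2
      · exact achieves_one j
  have hrec := recursion R hstar ha.le hb.le hab ht0 htA
  refine hrec.mono ?_
  rw [le_div_iff₀ hrpos]
  set p : ℝ := a / Q with hp
  have hp0 : 0 ≤ p := by positivity
  have hp1 : p ≤ 1 := by
    rw [hp, div_le_one hQ]; linarith
  have hpT : p * ((r : ℝ) + 1) ≤ T := by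
    rw [hp, div_mul_eq_mul_div, div_le_iff₀ hQ]
    rw [div_le_iff₀ hT] at hQ1
    linarith
  have hpT2 : T2 ≤ p * ((r : ℝ) + 1) := by
    refine hT2.trans ?_
    rw [hp, div_mul_eq_mul_div, div_le_div_iff₀ hrho hQ]
    have h1 : rho * (a * ((r : ℝ) + 1) / T) * T = rho * (a * ((r : ℝ) + 1)) := by
      field_simp
    have h2 := mul_le_mul_of_nonneg_right hQ2 hT.le
    linarith
  have hpsmall : p ≤ T / ((r : ℝ) + 1) := by
    rw [le_div_iff₀ hrpos]; exact hpT
  -- first sum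
  have hs1 := sum1_le hr8 hp0 hp1 hpT (t := t) (fun j => min_le_left _ _)
  have hs1' : ∑ j ∈ range r, (r.choose j : ℝ) * (p ^ j * (1 - p) ^ (r - j) * t j) ≤
      65 / 256 + Real.exp (-T2 + 8 * (T / ((r : ℝ) + 1))) * Wc T := by
    refine hs1.trans (add_le_add le_rfl ?_)
    refine mul_le_mul_of_nonneg_right ?_ (Wc_nonneg hT.le)
    refine Real.exp_le_exp.2 ?_
    linarith
  have hnn1 : 0 ≤ ∑ j ∈ range r, (r.choose j : ℝ) * (p ^ j * (1 - p) ^ (r - j) * t j) :=
    sum_nonneg fun j _ => mul_nonneg (Nat.cast_nonneg _) (mul_nonneg (mul_nonneg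
      (pow_nonneg hp0 _) (pow_nonneg (by linarith) _)) (ht0 j))
  -- second sum
  have hy0 : 0 ≤ a * (1 - 1 / Q) := by
    refine mul_nonneg ha.le ?_
    rw [sub_nonneg, div_le_one hQ]; exact hQge
  have hya : a * (1 - 1 / Q) ≤ a := by
    have : 0 ≤ 1 / Q := by positivity
    nlinarith
  have hs2 := sum2_le (r := r) (j0 := j0) (a := a) (L := L) hb hb1 hy0 hya hL (t := t)
    (fun j => min_le_right _ _)
  have hby : b + a * (1 - 1 / Q) = 1 - p := by
    rw [hp]
    have : b = 1 - a := by linarith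
    rw [this]; ring
  have hexp : (1 - p) ^ (r + 1) ≤ Real.exp (-T2) := by
    have h4 : 1 - p ≤ Real.exp (-p) := by
      have := Real.add_one_le_exp (-p); linarith
    calc (1 - p) ^ (r + 1) ≤ (Real.exp (-p)) ^ (r + 1) :=
          pow_le_pow_left₀ (by linarith) h4 _
      _ = Real.exp (((r + 1 : ℕ) : ℝ) * (-p)) := by rw [Real.exp_nat_mul]
      _ ≤ Real.exp (-T2) := by
          refine Real.exp_le_exp.2 ?_
          push_cast
          linarith
  rw [hby] at hs2
  have hs2' : ((r : ℝ) + 1) * ∑ j ∈ Ico 1 r, (r.choose j : ℝ) *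
      (b ^ j * (a * (1 - 1 / Q)) ^ (r - j) * t j) ≤ Gr a j0 r + (L / b) * Real.exp (-T2) := by
    refine hs2.trans (add_le_add le_rfl ?_)
    exact mul_le_mul_of_nonneg_left hexp (div_nonneg hL hb.le)
  have hnn2 : 0 ≤ ((r : ℝ) + 1) * ∑ j ∈ Ico 1 r, (r.choose j : ℝ) *
      (b ^ j * (a * (1 - 1 / Q)) ^ (r - j) * t j) :=
    mul_nonneg hrpos.le (sum_nonneg fun j _ => mul_nonneg (Nat.cast_nonneg _)
      (mul_nonneg (mul_nonneg (pow_nonneg hb.le _) (pow_nonneg hy0 _)) (ht0 j)))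
  have hQu0 : 0 ≤ Q / u := by positivity
  have hk0 : 0 ≤ kap := by rw [hkap]; norm_num
  -- combine
  set S1 := ∑ j ∈ range r, (r.choose j : ℝ) * (p ^ j * (1 - p) ^ (r - j) * t j) with hS1
  set S2 := ∑ j ∈ Ico 1 r, (r.choose j : ℝ) *
      (b ^ j * (a * (1 - 1 / Q)) ^ (r - j) * t j) with hS2
  have e1 : (a ^ r + b ^ r + 1 / u * S1 + Q / u * S2) * ((r : ℝ) + 1) =
      Er a b r + (Q / u) * ((p * ((r : ℝ) + 1) / a) * S1) + (Q / u) * (((r : ℝ) + 1) * S2) := by
    unfold Er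
    rw [hp]
    field_simp
  rw [e1]
  unfold Bnd
  refine add_le_add (add_le_add le_rfl ?_) ?_
  · refine mul_le_mul hQu ?_ (by positivity) hk0
    refine mul_le_mul ?_ hs1' hnn1 (by positivity)
    exact div_le_div_of_nonneg_right hpT ha.le
  · exact mul_le_mul hQu hs2' hnn2 hk0

end Pool.Agent.Helper4.Turan
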