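import Pool.Agent.Helper4.Recursion

/-!
Small Turan systems: the quadratic construction for even `r`, and the Turan construction for `r = 3`.
-/

namespace Pool.Agent.Helper4.Turan

open Finset

set_option linter.unusedSectionVars false

section Three

/-- the triple condition of the Turan construction -/
def Tri {V : Type} [DecidableEq V] (c : V → ZMod 3) (X : Finset V) : Prop :=
  (∀ x ∈ X, ∀ y ∈ X, c x = c y) ∨
    ∃ a : ZMod 3, (X.filter (fun x => c x = a)).card = 2 ∧
      (X.filter (fun x => c x = a + 1)).card = 1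

instance {V : Type} [DecidableEq V] (c : V → ZMod 3) (X : Finset V) : Decidable (Tri c X) := by
  unfold Tri; infer_instance

lemma tri_map {U V : Type} [DecidableEq U] [DecidableEq V] (e : U ↪ V) (c : V → ZMod 3)
    (Y : Finset U) : Tri c (Y.map e) ↔ Tri (c ∘ e) Y := by
  unfold Tri
  refine or_congr ?_ (exists_congr fun a => and_congr ?_ ?_)
  · simp
  · rw [filter_map, card_map]; rfl
  · rw [filter_map, card_map]; rfl

lemma tri_four : ∀ d : Fin 4 → ZMod 3, ∃ i : Fin 4, Tri d (univ.erase i) := by
  decide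

lemma tri_count : (univ.filter (fun d : Fin 3 → ZMod 3 => Tri d univ)).card = 12 := by
  decide

lemma exists_emb {n k : ℕ} {X : Finset (Fin n)} (hX : X.card = k) :
    ∃ e : Fin k ↪ Fin n, X = univ.map e := by
  refine ⟨(X.orderEmbOfFin hX).toEmbedding, ?_⟩
  rw [← coe_inj, coe_map, coe_univ, Set.image_univ]
  simp

lemma card_marginal {V : Type} [Fintype V] [DecidableEq V] {K : Type} [Fintype K] [DecidableEq K]
    {k : ℕ}
    (e : Fin k ↪ V) (P : (Fin k → K) → Prop) [DecidablePred P] :
    (univ.filter (fun c : V → K => P (c ∘ e))).card * (Fintype.card K) ^ k =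
      (univ.filter (fun d : Fin k → K => P d)).card * Fintype.card (V → K) := by
  classical
  let p : V → Prop := fun x => x ∈ Set.range e
  let E1 : (V → K) ≃ ({x // p x} → K) × ({x // ¬ p x} → K) := Equiv.piEquivPiSubtypeProd p _
  let E2 : Fin k ≃ {x // p x} := Equiv.ofInjective e e.injective
  let E3 : (V → K) ≃ (Fin k → K) × ({x // ¬ p x} → K) :=
    E1.trans (Equiv.prodCongr (Equiv.arrowCongr E2.symm (Equiv.refl K)) (Equiv.refl _))
  have hE3 : ∀ c, (E3 c).1 = c ∘ e := by
    intro c
    ext i
    simp only [E3, E1, E2, Equiv.trans_apply, Equiv.prodCongr_apply, Prod.map_fst]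
    rfl
  have h1 : (univ.filter (fun c : V → K => P (c ∘ e))).card =
      ((univ.filter (fun d : Fin k → K => P d)) ×ˢ (univ : Finset ({x // ¬ p x} → K))).card := by
    refine card_bij (fun c _ => E3 c) ?_ ?_ ?_
    · intro c hc
      rw [mem_filter] at hc
      rw [mem_product, mem_filter, hE3]
      exact ⟨⟨mem_univ _, hc.2⟩, mem_univ _⟩
    · intro c _ c' _ h
      exact E3.injective h
    · intro d hd
      rw [mem_product, mem_filter] at hd
      refine ⟨E3.symm d, ?_, by simp⟩
      rw [mem_filter, ← hE3]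
      simpa using hd.1.2
  have h2 : Fintype.card (V → K) = (Fintype.card K) ^ k * Fintype.card ({x // ¬ p x} → K) := by
    rw [Fintype.card_congr E3, Fintype.card_prod]
    simp
  rw [h1, h2, card_product, card_univ]
  ring

/-- Turan's construction -/
lemma achieves_three : Achieves 3 (4 / 9) := by
  intro n
  refine exists_le_of_avg (Ω := Fin n → ZMod 3) (fun _ => 1) (fun _ => zero_le_one) ?_
    (fun c => (univ.powersetCard 3).filter (fun X => Tri c X)) ?_ _ ?_
  · simp only [sum_const, nsmul_eq_mul, mul_one, card_univ]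
    exact_mod_cast Fintype.card_pos
  · intro c
    refine ⟨?_, ?_⟩
    · intro e he
      exact (mem_powersetCard.1 (mem_filter.1 he).1).2
    · intro S hS
      obtain ⟨e, rfl⟩ := exists_emb hS
      obtain ⟨i, hi⟩ := tri_four (c ∘ e)
      rw [← tri_map, map_erase] at hi
      refine ⟨e i, mem_map_of_mem _ (mem_univ _), ?_⟩
      rw [mem_filter, mem_powersetCard]
      refine ⟨⟨subset_univ _, ?_⟩, hi⟩
      rw [card_erase_of_mem (mem_map_of_mem _ (mem_univ _)), card_map]
      rfl
  · intro X hX
    simp only [one_mul, sum_const, nsmul_eq_mul, mul_one, card_univ]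
    rw [← sum_filter, sum_const, nsmul_eq_mul, mul_one]
    obtain ⟨e, he⟩ := exists_emb hX
    have h1 : (univ.filter (fun c : Fin n → ZMod 3 =>
        X ∈ (univ.powersetCard 3).filter (fun X => Tri c X))) =
        univ.filter (fun c : Fin n → ZMod 3 => Tri (c ∘ e) univ) := by
      ext c
      simp only [mem_filter, mem_univ, true_and, mem_powersetCard, subset_univ, hX]
      rw [he, tri_map]
    have h2 := card_marginal (K := ZMod 3) e (fun d => Tri d univ)
    rw [tri_count] at h2
    have h3 : Fintype.card (ZMod 3) = 3 := ZMod.card 3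
    rw [h3] at h2
    rw [h1]
    have h4 : ((univ.filter (fun c : Fin n → ZMod 3 => Tri (c ∘ e) univ)).card : ℝ) * 3 ^ 3 =
        12 * (Fintype.card (Fin n → ZMod 3) : ℝ) := by exact_mod_cast h2
    linarith

end Three

section Even

open scoped Classical

variable {n : ℕ}

/-- indicator vector of the rectangle -/
noncomputable def rect (A B : Finset (Fin n)) : Fin n × Fin n → ZMod 2 :=
  fun p => if p ∈ A ×ˢ B then 1 else 0

lemma rect_unimod {A B : Finset (Fin n)} (hA : A ≠ ∅) (hB : B ≠ ∅) : Unimod (rect A B) := by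
  obtain ⟨x, hx⟩ := nonempty_iff_ne_empty.2 hA
  obtain ⟨y, hy⟩ := nonempty_iff_ne_empty.2 hB
  refine ⟨Pi.single (x, y) 1, ?_⟩
  rw [Finset.sum_eq_single (x, y)]
  · simp [rect, hx, hy]
  · intro b _ hb
    rw [Pi.single_eq_of_ne hb, zero_mul]
  · intro h; exact absurd (mem_univ _) h

lemma dep_rect (M : Fin n × Fin n → Fin 1 → ZMod 2) (A B : Finset (Fin n)) :
    Dep 1 M (rect A B) ↔ ∑ x ∈ A, ∑ y ∈ B, M (x, y) 0 = 0 := by
  have h : ∑ p, rect A B p * M p 0 = ∑ x ∈ A, ∑ y ∈ B, M (x, y) 0 := by
    rw [← sum_product' A B (fun x y => M (x, y) 0)]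
    simp only [rect, ite_mul, one_mul, zero_mul]
    rw [← sum_filter]
    refine sum_congr ?_ fun _ _ => rfl
    ext p; simp
  constructor
  · intro hd
    rw [← h]; exact hd 0 (by simp)
  · intro hd i _
    have : i = 0 := Subsingleton.elim _ _
    rw [this, h, hd]

lemma exists_eq_sum {V : Type} {A : Finset V} (hA : Odd A.card) (m : V → ZMod 2) :
    ∃ x ∈ A, m x = ∑ y ∈ A, m y := by
  by_contra hcon
  push Not at hcon
  have h2 : ∀ a b : ZMod 2, a ≠ b → a = b + 1 := by decide
  have h1 : ∀ x ∈ A, m x = (∑ y ∈ A, m y) + 1 := fun x hx => h2 _ _ (hcon x hx)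
  have h3 := sum_congr rfl h1
  rw [sum_const, nsmul_eq_mul] at h3
  have h4 : ((A.card : ℕ) : ZMod 2) = 1 := by
    obtain ⟨k, hk⟩ := hA
    rw [hk]
    push_cast
    have : (2 : ZMod 2) = 0 := by decide
    rw [this, zero_mul, zero_add]
  rw [h4, one_mul] at h3
  have h5 : ∀ a : ZMod 2, a ≠ a + 1 := by decide
  exact h5 _ h3

/-- the quadratic family -/
noncomputable def quadH (r : ℕ) (C : Finset (Fin n)) (M : Fin n × Fin n → Fin 1 → ZMod 2) :
    Finset (Finset (Fin n)) :=
  (univ.powersetCard r).filter (fun X => Even (X ∩ C).card ∧ Dep 1 M (rect (X ∩ C) (X \ C)))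

lemma quadH_isSystem {r : ℕ} (hr : Even r) (C : Finset (Fin n))
    (M : Fin n × Fin n → Fin 1 → ZMod 2) : IsSystem r (quadH r C M) := by
  refine ⟨?_, ?_⟩
  · intro e he
    exact (mem_powersetCard.1 (mem_filter.1 he).1).2
  · intro S hS
    have hsplit : (S \ C).card + (S ∩ C).card = S.card := card_sdiff_add_card_inter S C
    have key : ∀ z ∈ S, (Even (S.erase z ∩ C).card ∧
        Dep 1 M (rect (S.erase z ∩ C) (S.erase z \ C))) → S.erase z ∈ quadH r C M := by
      intro z hz hc
      unfold quadH
      rw [mem_filter, mem_powersetCard]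
      exact ⟨⟨subset_univ _, by rw [card_erase_of_mem hz]; omega⟩, hc⟩
    by_cases hA : Even (S ∩ C).card
    · have hB : Odd (S \ C).card := by
        have : Odd ((S \ C).card + (S ∩ C).card) := by
          rw [hsplit, hS]; exact hr.add_one
        exact (Nat.odd_add.1 this).2 hA
      obtain ⟨z, hz, hzs⟩ := exists_eq_sum hB (fun y => ∑ x ∈ S ∩ C, M (x, y) 0)
      have hz' := mem_sdiff.1 hz
      have e1 : S.erase z ∩ C = S ∩ C := by
        ext x
        simp only [mem_inter, mem_erase]
        constructor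
        · rintro ⟨⟨_, h1⟩, h2⟩; exact ⟨h1, h2⟩
        · rintro ⟨h1, h2⟩
          exact ⟨⟨fun h => hz'.2 (h ▸ h2), h1⟩, h2⟩
      have e2 : S.erase z \ C = (S \ C).erase z := by
        ext x
        simp only [mem_sdiff, mem_erase]
        tauto
      refine ⟨z, hz'.1, key z hz'.1 ?_⟩
      rw [e1, e2, dep_rect]
      refine ⟨hA, ?_⟩
      rw [sum_comm]
      have h1 := Finset.add_sum_erase (S \ C) (fun y => ∑ x ∈ S ∩ C, M (x, y) 0) hz
      rw [← hzs] at h1
      exact left_eq_add.1 h1.symm
    · rw [Nat.not_even_iff_odd] at hA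
      obtain ⟨z, hz, hzs⟩ := exists_eq_sum hA (fun x => ∑ y ∈ S \ C, M (x, y) 0)
      have hz' := mem_inter.1 hz
      have e1 : S.erase z ∩ C = (S ∩ C).erase z := by
        ext x
        simp only [mem_inter, mem_erase]
        tauto
      have e2 : S.erase z \ C = S \ C := by
        ext x
        simp only [mem_sdiff, mem_erase]
        constructor
        · rintro ⟨⟨_, h1⟩, h2⟩; exact ⟨h1, h2⟩
        · rintro ⟨h1, h2⟩
          exact ⟨⟨fun h => h2 (h ▸ hz'.2), h1⟩, h2⟩
      refine ⟨z, hz'.1, key z hz'.1 ?_⟩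
      rw [e1, e2, dep_rect]
      refine ⟨?_, ?_⟩
      · rw [card_erase_of_mem hz]
        obtain ⟨k, hk⟩ := hA
        rw [hk]
        simp
      · have h1 := Finset.add_sum_erase (S ∩ C) (fun x => ∑ y ∈ S \ C, M (x, y) 0) hz
        rw [← hzs] at h1
        exact left_eq_add.1 h1.symm

/-- Density of the quadratic construction, as a finite sum. -/
lemma achieves_even_aux {r : ℕ} (hr : Even r) :
    Achieves r (∑ j ∈ range (r + 1), (r.choose j : ℝ) * ((1 / 2) ^ j * (1 / 2) ^ (r - j) *
      (if Even j then (if j = 0 ∨ j = r then 1 else 1 / 2) else 0))) := by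
  intro n
  set N : ℝ := (Fintype.card (Fin n × Fin n → Fin 1 → ZMod 2) : ℝ) with hN
  have hNpos : 0 < N := by rw [hN]; exact_mod_cast Fintype.card_pos
  have hhalf : (1 / 2 : ℝ) + 1 / 2 = 1 := by norm_num
  have htot : ∑ ω : Finset (Fin n) × (Fin n × Fin n → Fin 1 → ZMod 2),
      (1 / 2 : ℝ) ^ ω.1.card * (1 / 2) ^ (Fintype.card (Fin n) - ω.1.card) = N := by
    rw [Fintype.sum_prod_type]
    simp only [sum_const, nsmul_eq_mul, card_univ]
    rw [← mul_sum]
    have := sum_inter (V := Fin n) ∅ (fun _ => 1) hhalf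
    simp only [mul_one, powerset_empty, sum_singleton, card_empty, pow_zero, Nat.sub_zero] at this
    rw [this, mul_one]
  refine exists_le_of_avg
    (Ω := Finset (Fin n) × (Fin n × Fin n → Fin 1 → ZMod 2))
    (fun ω => (1 / 2 : ℝ) ^ ω.1.card * (1 / 2) ^ (Fintype.card (Fin n) - ω.1.card))
    (fun ω => by positivity)
    (by rw [htot]; exact hNpos)
    (fun ω => quadH r ω.1 ω.2)
    (fun ω => quadH_isSystem hr ω.1 ω.2) _ ?_
  intro X hX
  rw [htot]
  set f : Finset (Fin n) → ℝ := fun A =>
    ((univ.filter (fun M : Fin n × Fin n → Fin 1 → ZMod 2 =>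
      Even A.card ∧ Dep 1 M (rect A (X \ A)))).card : ℝ) with hf
  have hsum : ∑ ω : Finset (Fin n) × (Fin n × Fin n → Fin 1 → ZMod 2),
      (1 / 2 : ℝ) ^ ω.1.card * (1 / 2) ^ (Fintype.card (Fin n) - ω.1.card) *
        (if X ∈ quadH r ω.1 ω.2 then (1:ℝ) else 0) =
      ∑ A ∈ X.powerset, (1 / 2 : ℝ) ^ A.card * (1 / 2) ^ (X.card - A.card) * f A := by
    rw [← sum_inter X f hhalf, Fintype.sum_prod_type]
    refine sum_congr rfl fun C _ => ?_
    simp only
    rw [← mul_sum, ← sum_filter, sum_const, nsmul_eq_mul, mul_one]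
    congr 3
    ext q
    simp only [mem_filter, mem_univ, true_and, quadH, mem_powersetCard, subset_univ, hX]
    rw [sdiff_inter_self_left]
  rw [hsum]
  have hfA : ∀ A ∈ X.powerset, f A ≤
      (if Even A.card then (if A.card = 0 ∨ A.card = r then 1 else 1 / 2) else 0) * N := by
    intro A hA
    rw [mem_powerset] at hA
    by_cases he : Even A.card
    · rw [if_pos he]
      by_cases h0 : A.card = 0 ∨ A.card = r
      · rw [if_pos h0, one_mul]
        simp only [hf, hN]
        exact_mod_cast card_le_univ _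
      · rw [if_neg h0]
        push Not at h0
        have hA0 : A ≠ ∅ := fun h => h0.1 (by rw [h]; rfl)
        have hB0 : X \ A ≠ ∅ := by
          intro h
          rw [← card_eq_zero, card_sdiff_of_subset hA, hX] at h
          have : A.card ≤ X.card := card_le_card hA
          omega
        have h1 := card_dep (V := Fin n × Fin n) (R := ZMod 2) (n := 1) (k := 1) le_rfl
          (rect_unimod hA0 hB0)
        have h2 : f A = ((univ.filter (fun M : Fin n × Fin n → Fin 1 → ZMod 2 =>
            Dep 1 M (rect A (X \ A)))).card : ℝ) := by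
          simp only [hf]
          congr 2
          ext M
          simp [he]
        have h3 : Fintype.card (ZMod 2) = 2 := ZMod.card 2
        rw [h3, pow_one] at h1
        rw [h2, hN]
        have h1' : ((univ.filter (fun M : Fin n × Fin n → Fin 1 → ZMod 2 =>
            Dep 1 M (rect A (X \ A)))).card : ℝ) * 2 =
            (Fintype.card (Fin n × Fin n → Fin 1 → ZMod 2) : ℝ) := by exact_mod_cast h1
        linarith
    · rw [if_neg he, zero_mul]
      simp only [hf]
      have : (univ.filter (fun M : Fin n × Fin n → Fin 1 → ZMod 2 =>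
          Even A.card ∧ Dep 1 M (rect A (X \ A)))) = ∅ := by
        ext M; simp [he]
      rw [this]; simp
  calc ∑ A ∈ X.powerset, (1 / 2 : ℝ) ^ A.card * (1 / 2) ^ (X.card - A.card) * f A
      ≤ ∑ A ∈ X.powerset, (1 / 2 : ℝ) ^ A.card * (1 / 2) ^ (X.card - A.card) *
        ((if Even A.card then (if A.card = 0 ∨ A.card = r then 1 else 1 / 2) else 0) * N) :=
        sum_le_sum fun A hA => mul_le_mul_of_nonneg_left (hfA A hA) (by positivity)
    _ = (∑ A ∈ X.powerset, (fun j => (1 / 2 : ℝ) ^ j * (1 / 2) ^ (X.card - j) *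
        ((if Even j then (if j = 0 ∨ j = r then 1 else 1 / 2) else 0))) A.card) * N := by
        rw [sum_mul]
        refine sum_congr rfl fun A _ => ?_
        ring
    _ = _ := by
        rw [Finset.sum_powerset_apply_card (fun j => (1 / 2 : ℝ) ^ j * (1 / 2) ^ (X.card - j) *
          ((if Even j then (if j = 0 ∨ j = r then 1 else 1 / 2) else 0))), hX]
        congr 1
        refine sum_congr rfl fun j _ => ?_
        rw [nsmul_eq_mul]

end Even

lemma achieves_two : Achieves 2 (1 / 2) := by
  refine (achieves_even_aux (r := 2) (by decide)).mono (le_of_eq ?_)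
  simp only [sum_range_succ, range_zero, sum_empty]
  norm_num [Nat.choose, Nat.even_iff]

lemma achieves_four : Achieves 4 (5 / 16) := by
  refine (achieves_even_aux (r := 4) (by decide)).mono (le_of_eq ?_)
  simp only [sum_range_succ, range_zero, sum_empty]
  norm_num [Nat.choose, Nat.even_iff]

lemma achieves_six : Achieves 6 (17 / 64) := by
  refine (achieves_even_aux (r := 6) (by decide)).mono (le_of_eq ?_)
  simp only [sum_range_succ, range_zero, sum_empty]
  norm_num [Nat.choose, Nat.even_iff]

lemma achieves_eight : Achieves 8 (65 / 256) := by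
  refine (achieves_even_aux (r := 8) (by decide)).mono (le_of_eq ?_)
  simp only [sum_range_succ, range_zero, sum_empty]
  norm_num [Nat.choose, Nat.even_iff]

end Pool.Agent.Helper4.Turan
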