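import Pool.Agent.Helper4.Analysis

/-!
The asymptotic bound for Turan systems.
-/

namespace Pool.Agent.Helper4.Turan

open Finset Filter Topology
open scoped Classical

/-- eventually the densities are at most `L / (r + 1)` -/
def PL (L : ℝ) : Prop := ∃ r0 : ℕ, ∀ r : ℕ, r0 ≤ r → Achieves r (L / ((r : ℝ) + 1))

lemma PL.mono {L L' : ℝ} (h : PL L) (hL : L ≤ L') : PL L' := by
  obtain ⟨r0, hr0⟩ := h
  exact ⟨r0, fun r hr => (hr0 r hr).mono (div_le_div_of_nonneg_right hL (by positivity))⟩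

lemma tendsto_Er {a b : ℝ} (ha : 0 < a) (hb : 0 < b) (hab : a + b = 1) :
    Tendsto (fun r => Er a b r) atTop (𝓝 0) := by
  have h : ∀ c : ℝ, 0 ≤ c → c < 1 → Tendsto (fun r : ℕ => ((r : ℝ) + 1) * c ^ r) atTop (𝓝 0) := by
    intro c hc0 hc1
    have h1 := tendsto_self_mul_const_pow_of_lt_one hc0 hc1
    have h2 := tendsto_pow_atTop_nhds_zero_of_lt_one hc0 hc1
    have h3 := h1.add h2
    rw [add_zero] at h3
    refine h3.congr fun r => ?_
    ring
  have h4 := (h a ha.le (by linarith)).add (h b hb.le (by linarith))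
  rw [add_zero] at h4
  refine h4.congr fun r => ?_
  unfold Er; ring

lemma tendsto_Gr {a : ℝ} (ha : 0 < a) (ha1 : a < 1) (j0 : ℕ) :
    Tendsto (fun r => Gr a j0 r) atTop (𝓝 0) := by
  have h : ∀ j : ℕ, Tendsto (fun r : ℕ => ((r : ℝ) + 1) * ((r.choose j : ℝ) * a ^ (r - j))) atTop
      (𝓝 0) := by
    intro j
    have h1 := tendsto_pow_const_mul_const_pow_of_lt_one (j + 1) ha.le ha1
    have h2 := tendsto_pow_const_mul_const_pow_of_lt_one j ha.le ha1
    have h3 := (h1.add h2).div_const (a ^ j)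
    rw [add_zero, zero_div] at h3
    refine tendsto_of_tendsto_of_tendsto_of_le_of_le' tendsto_const_nhds h3 ?_ ?_
    · filter_upwards with r
      positivity
    · filter_upwards [eventually_ge_atTop j] with r hr
      have h4 : (r.choose j : ℝ) ≤ (r : ℝ) ^ j := by exact_mod_cast Nat.choose_le_pow r j
      have h5 : a ^ (r - j) = a ^ r / a ^ j := by
        rw [eq_div_iff (pow_ne_zero _ ha.ne'), ← pow_add]
        congr 1; omega
      rw [h5]
      have h6 : 0 ≤ a ^ r / a ^ j := by positivity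
      have h7 : 0 ≤ (r : ℝ) + 1 := by positivity
      calc ((r : ℝ) + 1) * ((r.choose j : ℝ) * (a ^ r / a ^ j))
          ≤ ((r : ℝ) + 1) * ((r : ℝ) ^ j * (a ^ r / a ^ j)) :=
            mul_le_mul_of_nonneg_left (mul_le_mul_of_nonneg_right h4 h6) h7
        _ = _ := by rw [pow_succ]; ring
  have h8 : Tendsto (fun r : ℕ => ∑ j ∈ range j0, ((r : ℝ) + 1) *
      ((r.choose j : ℝ) * a ^ (r - j))) atTop (𝓝 (∑ j ∈ range j0, 0)) :=
    tendsto_finsetSum _ fun j _ => h j
  rw [sum_const_zero] at h8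
  refine h8.congr fun r => ?_
  unfold Gr; rw [mul_sum]

lemma tendsto_Bnd {a b T T2 kap : ℝ} (ha : 0 < a) (hb : 0 < b) (hab : a + b = 1) (j0 : ℕ)
    (L : ℝ) :
    Tendsto (fun r => Bnd a b T T2 kap j0 L r) atTop
      (𝓝 (kap * ((T / a) * (65 / 256 + Real.exp (-T2) * Wc T)) +
        kap * ((L / b) * Real.exp (-T2)))) := by
  have h1 : Tendsto (fun r : ℕ => T / ((r : ℝ) + 1)) atTop (𝓝 0) := by
    have : Tendsto (fun r : ℕ => (r : ℝ) + 1) atTop atTop :=
      tendsto_atTop_add_const_right _ _ tendsto_natCast_atTop_atTop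
    exact tendsto_const_nhds.div_atTop this
  have h2 : Tendsto (fun r : ℕ => Real.exp (-T2 + 8 * (T / ((r : ℝ) + 1)))) atTop
      (𝓝 (Real.exp (-T2))) := by
    have h3 := (h1.const_mul 8).const_add (-T2)
    rw [mul_zero, add_zero] at h3
    exact (Real.continuous_exp.tendsto _).comp h3
  have h4 := ((h2.mul_const (Wc T)).const_add (65 / 256)).const_mul (T / a) |>.const_mul kap
  have h5 := ((tendsto_Gr ha (by linarith) j0).add_const ((L / b) * Real.exp (-T2))).const_mul kap
  have h6 := ((tendsto_Er ha hb hab).add h4).add h5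
  rw [zero_add, zero_add] at h6
  exact h6

/-- the fixed point argument -/
lemma PL_of_fixed {a b T T2 c d : ℝ} (ha : 0 < a) (hb : 0 < b) (hab : a + b = 1) (hT : 0 < T)
    (hT2 : T2 ≤ T / rho)
    (hc : (1000002 / 1000000) * ((T / a) * (65 / 256 + Real.exp (-T2) * Wc T)) ≤ c)
    (hd : (1000002 / 1000000) * (Real.exp (-T2) / b) ≤ d) (hd1 : d < 1) {L0 : ℝ}
    (hL0 : c < L0 * (1 - d)) : PL L0 := by
  have hlim : ∀ (j0 : ℕ) (L : ℝ), 0 ≤ L → ∀ δ > 0, ∀ᶠ r : ℕ in atTop,
      Bnd a b T T2 (1000002 / 1000000) j0 L r ≤ c + d * L + δ := by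
    intro j0 L hL δ hδ
    have h1 := tendsto_Bnd (T := T) (T2 := T2) (kap := 1000002 / 1000000) ha hb hab j0 L
    have h2 : (1000002 / 1000000 : ℝ) * ((T / a) * (65 / 256 + Real.exp (-T2) * Wc T)) +
        (1000002 / 1000000) * ((L / b) * Real.exp (-T2)) < c + d * L + δ := by
      have h3 : (1000002 / 1000000 : ℝ) * ((L / b) * Real.exp (-T2)) =
        ((1000002 / 1000000) * (Real.exp (-T2) / b)) * L := by ring
      rw [h3]
      have h4 := mul_le_mul_of_nonneg_right hd hL
      linarith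
    exact (h1.eventually (gt_mem_nhds h2)).mono fun r hr => hr.le
  have hring : ∀ᶠ r : ℕ in atTop,
      (2 : ℝ) ^ (84 * 480 + 20) * 3 ^ 20 ≤ a * ((r : ℝ) + 1) / T := by
    have h1 : Tendsto (fun r : ℕ => a * ((r : ℝ) + 1) / T) atTop atTop := by
      refine Tendsto.atTop_div_const hT (Tendsto.const_mul_atTop ha ?_)
      exact tendsto_atTop_add_const_right _ _ tendsto_natCast_atTop_atTop
    exact h1.eventually_ge_atTop _
  have hring' : ∀ᶠ r : ℕ in atTop, ∀ N : ℕ, N = 84 * 480 + 20 →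
      (2 : ℝ) ^ N * 3 ^ 20 ≤ a * ((r : ℝ) + 1) / T := by
    filter_upwards [hring] with r hr N hN
    rw [hN]; exact hr
  have hc0 : 0 ≤ c := by
    refine le_trans ?_ hc
    have := Wc_nonneg hT.le
    positivity
  have hd0 : 0 ≤ d := by
    refine le_trans ?_ hd
    positivity
  have hd2 : 0 < 1 - d := by linarith
  obtain ⟨N, hN⟩ : ∃ N : ℕ, N = 84 * 480 + 20 := ⟨_, rfl⟩
  -- boundedness
  have hbdd : ∃ M : ℝ, 0 ≤ M ∧ PL M := by
    have h1 := (hlim 0 0 le_rfl 1 one_pos).and (hring'.and (eventually_ge_atTop 8))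
    obtain ⟨R1, hR1⟩ := eventually_atTop.1 h1
    set M : ℝ := max ((R1 : ℝ) + 1) ((c + 1) / (1 - d)) with hM
    have hM0 : 0 ≤ M := le_trans (by positivity) (le_max_left _ _)
    have hM1 : c + 1 ≤ M * (1 - d) := by
      have := le_max_right ((R1 : ℝ) + 1) ((c + 1) / (1 - d))
      rw [← hM, div_le_iff₀ hd2] at this
      exact this
    refine ⟨M, hM0, 0, fun r _ => ?_⟩
    induction r using Nat.strong_induction_on with
    | _ r ih =>
      have hrpos : (0 : ℝ) < (r : ℝ) + 1 := by positivity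
      by_cases hr : r < R1
      · refine (achieves_one r).mono ?_
        rw [le_div_iff₀ hrpos, one_mul]
        refine le_trans ?_ (le_max_left _ _)
        have : (r : ℝ) ≤ (R1 : ℝ) := by exact_mod_cast hr.le
        linarith
      · push Not at hr
        obtain ⟨hb1, hb2, hb3⟩ := hR1 r hr
        have hstep := step (L := M) (j0 := 0) ha hb hab hT hT2 hN (hb2 N hN) hb3 hM0
          (fun j hj _ => ih j hj (Nat.zero_le _))
        refine hstep.mono (div_le_div_of_nonneg_right ?_ hrpos.le)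
        have h2 : Bnd a b T T2 (1000002 / 1000000) 0 M r =
            Bnd a b T T2 (1000002 / 1000000) 0 0 r +
              ((1000002 / 1000000) * (Real.exp (-T2) / b)) * M := by
          unfold Bnd; ring
        rw [h2]
        have h3 := mul_le_mul_of_nonneg_right hd hM0
        rw [mul_zero, add_zero] at hb1
        linarith
  -- iteration
  have hiter : ∀ L : ℝ, 0 ≤ L → PL L → ∀ δ > 0, PL (c + d * L + δ) := by
    intro L hL hPL δ hδ
    obtain ⟨r0, hr0⟩ := hPL
    have h1 := (hlim r0 L hL δ hδ).and (hring'.and (eventually_ge_atTop 8))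
    obtain ⟨R1, hR1⟩ := eventually_atTop.1 h1
    refine ⟨R1, fun r hr => ?_⟩
    obtain ⟨hb1, hb2, hb3⟩ := hR1 r hr
    have hstep := step (L := L) (j0 := r0) ha hb hab hT hT2 hN (hb2 N hN) hb3 hL
      (fun j _ hj => hr0 j hj)
    exact hstep.mono (div_le_div_of_nonneg_right hb1 (by positivity))
  by_contra hcon
  set S : Set ℝ := {L | 0 ≤ L ∧ PL L} with hS
  have hSne : S.Nonempty := by
    obtain ⟨M, hM0, hM⟩ := hbdd
    exact ⟨M, hM0, hM⟩
  have hSbdd : BddBelow S := ⟨0, fun L hL => hL.1⟩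
  have hge : L0 ≤ sInf S := by
    refine le_csInf hSne fun L hL => ?_
    by_contra hlt
    push Not at hlt
    exact hcon (hL.2.mono hlt.le)
  have hle : ∀ L ∈ S, sInf S ≤ c + d * L := by
    intro L hL
    refine le_of_forall_pos_le_add fun δ hδ => ?_
    refine csInf_le hSbdd ⟨?_, hiter L hL.1 hL.2 δ hδ⟩
    have := mul_nonneg hd0 hL.1
    linarith
  have hfin : sInf S ≤ c + d * sInf S := by
    refine le_of_forall_pos_le_add fun δ hδ => ?_
    obtain ⟨L, hL, hL2⟩ := exists_lt_of_csInf_lt hSne (lt_add_of_pos_right (sInf S) hδ)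
    have h1 := hle L hL
    have h2 : d * L ≤ d * (sInf S + δ) := mul_le_mul_of_nonneg_left hL2.le hd0
    nlinarith
  nlinarith

lemma exp_bound : Real.exp (-(5588 / 1000)) ≤ 3743 / 1000000 := by
  have h1 : (1000000 / 3743 : ℝ) ≤ Real.exp (5588 / 1000) := by
    have h2 : Real.exp (5588 / 1000) = Real.exp 1 ^ 5 * Real.exp (588 / 1000) := by
      rw [← Real.exp_nat_mul, ← Real.exp_add]
      congr 1
      norm_num
    rw [h2]
    have h3 : (2.7182818283 : ℝ) ≤ Real.exp 1 := Real.exp_one_gt_d9.le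
    have h4 : (2.7182818283 : ℝ) ^ 5 ≤ Real.exp 1 ^ 5 := pow_le_pow_left₀ (by norm_num) h3 5
    have h5 := Real.sum_le_exp_of_nonneg (x := 588 / 1000) (by norm_num) 7
    have h6 : (18003 / 10000 : ℝ) ≤ ∑ i ∈ range 7, (588 / 1000 : ℝ) ^ i / (i.factorial : ℝ) := by
      simp only [sum_range_succ, range_zero, sum_empty]
      norm_num [Nat.factorial]
    have h7 : (1484131 / 10000 : ℝ) ≤ (2.7182818283 : ℝ) ^ 5 := by norm_num
    have h8 : (1484131 / 10000 : ℝ) ≤ Real.exp 1 ^ 5 := h7.trans h4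
    have h9 : (18003 / 10000 : ℝ) ≤ Real.exp (588 / 1000) := h6.trans h5
    calc (1000000 / 3743 : ℝ) ≤ (1484131 / 10000) * (18003 / 10000) := by norm_num
      _ ≤ _ := mul_le_mul h8 h9 (by norm_num) (by positivity)
  rw [Real.exp_neg]
  have h2 : (0 : ℝ) < 1000000 / 3743 := by norm_num
  calc (Real.exp (5588 / 1000))⁻¹ ≤ (1000000 / 3743 : ℝ)⁻¹ := by
        rw [inv_le_inv₀ (Real.exp_pos _) h2]; exact h1
    _ = 3743 / 1000000 := by norm_num

lemma Wc_value : Wc (28 / 5) ≤ 20.3536 := by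
  unfold Wc
  simp only [sum_range_succ, range_zero, sum_empty, tab]
  norm_num [Nat.factorial]

/-- the main asymptotic theorem for Turan systems -/
theorem main_asymp : PL (21 / 10) := by
  have hexp := exp_bound
  have hexp0 : 0 < Real.exp (-(5588 / 1000)) := Real.exp_pos _
  have hW := Wc_value
  have hW0 : 0 ≤ Wc (28 / 5) := Wc_nonneg (by norm_num)
  refine PL_of_fixed (a := 47 / 50) (b := 3 / 50) (T := 28 / 5) (T2 := 5588 / 1000)
    (c := 19666 / 10000) (d := 624 / 10000)
    (by norm_num) (by norm_num) (by norm_num) (by norm_num) ?_ ?_ ?_ (by norm_num) (by norm_num)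
  · have h1 := rho_lt
    have h2 := rho_gt
    have h3 : 0 < rho := by linarith
    rw [le_div_iff₀ h3]
    linarith
  · have h4 : Real.exp (-(5588 / 1000)) * Wc (28 / 5) ≤ (3743 / 1000000) * 20.3536 :=
      mul_le_mul hexp hW hW0 (by norm_num)
    norm_num at h4 ⊢
    linarith
  · norm_num at hexp ⊢
    linarith

end Pool.Agent.Helper4.Turan
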