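import Pool.Agent.Helper1.TuranLimit
import Pool.Agent.Helper4.Final

/-!
From Turan systems to Turan densities.
-/

namespace Pool.Agent.Helper4.Turan

open Finset Filter Topology
open scoped Classical

lemma density_ge {r : ℕ} {t : ℝ} (h : Achieves r t) :
    1 - t ≤ Pool.Agent.Helper1.Turan.turanDensity r (r + 1) := by
  refine Pool.Agent.Helper1.Turan.le_turanDensity_of_frequently (Nat.le_succ r)
    (Eventually.frequently (Eventually.of_forall fun n => ?_))
  obtain ⟨H, hH, hc⟩ := h n
  refine ⟨(univ.powersetCard r) \ H, ?_, ?_, ?_⟩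
  · intro e he
    exact (mem_powersetCard.1 (mem_sdiff.1 he).1).2
  · intro S hS
    obtain ⟨z, hz, hzH⟩ := hH.2 S hS
    refine ⟨S.erase z, erase_subset _ _, by rw [card_erase_of_mem hz]; omega, ?_⟩
    intro hmem
    exact (mem_sdiff.1 hmem).2 hzH
  · have hsub : H ⊆ (univ : Finset (Fin n)).powersetCard r := by
      intro e he
      rw [mem_powersetCard]
      exact ⟨subset_univ _, hH.1 e he⟩
    have h1 : ((univ.powersetCard r) \ H).card = n.choose r - H.card := by
      rw [card_sdiff_of_subset hsub, card_powersetCard, card_univ, Fintype.card_fin]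
    have h2 : H.card ≤ n.choose r := by
      have := card_le_card hsub
      rwa [card_powersetCard, card_univ, Fintype.card_fin] at this
    rw [h1, Nat.cast_sub h2]
    linarith

theorem density_asymp : ∃ r0 : ℕ, ∀ r : ℕ, r0 ≤ r →
    1 - 21 / (10 * ((r : ℝ) + 1)) ≤ Pool.Agent.Helper1.Turan.turanDensity r (r + 1) := by
  obtain ⟨r0, hr0⟩ := main_asymp
  refine ⟨r0, fun r hr => ?_⟩
  have h := density_ge (hr0 r hr)
  have e : (21 : ℝ) / (10 * ((r : ℝ) + 1)) = 21 / 10 / ((r : ℝ) + 1) := by
    rw [div_div]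
  rw [e]; exact h

end Pool.Agent.Helper4.Turan
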