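import Mathlib

/-!
Counting linear dependencies over a finite commutative ring.
-/

namespace Pool.Agent.Helper4.Turan

open Finset
open scoped Classical

set_option linter.unusedSectionVars false

section Dep

variable {V : Type} [Fintype V] [DecidableEq V] {R : Type} [CommRing R] [Fintype R]
  [DecidableEq R] {n : ℕ}

/-- the coefficient vector `l` is a dependency of the vectors `w x` in the first `k` coordinates -/
def Dep (k : ℕ) (w : V → Fin n → R) (l : V → R) : Prop :=
  ∀ i : Fin n, (i : ℕ) < k → ∑ x, l x * w x i = 0

/-- `l` is unimodular: its entries generate the unit ideal -/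
def Unimod (l : V → R) : Prop := ∃ c : V → R, ∑ x, c x * l x = 1

/-- support of `l` -/
def supp (l : V → R) : Finset V := univ.filter (fun x => l x ≠ 0)

lemma mem_supp {l : V → R} {x : V} : x ∈ supp l ↔ l x ≠ 0 := by simp [supp]

/-- number of vector systems for which a fixed unimodular `l` is a dependency -/
lemma card_dep {k : ℕ} (hk : k ≤ n) {l : V → R} (hl : Unimod l) :
    (univ.filter (fun w : V → Fin n → R => Dep k w l)).card * (Fintype.card R) ^ k
      = Fintype.card (V → Fin n → R) := by
  classical
  obtain ⟨c, hc⟩ := hl
  -- equivalence `W ≃ {w // Dep} × (Fin k → R)`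
  have hcard : Fintype.card (V → Fin n → R) =
      Fintype.card ({w : V → Fin n → R // Dep k w l} × (Fin k → R)) := by
    let s : (Fin k → R) → (V → Fin n → R) := fun t x i =>
      if h : (i : ℕ) < k then c x * t ⟨i, h⟩ else 0
    have hs : ∀ t (i : Fin n) (h : (i : ℕ) < k), ∑ x, l x * s t x i = t ⟨i, h⟩ := by
      intro t i h
      have : ∀ x, l x * s t x i = (c x * l x) * t ⟨i, h⟩ := by
        intro x; simp only [s, h, dif_pos]; ring
      simp_rw [this]
      rw [← sum_mul, hc, one_mul]
    let ev : (V → Fin n → R) → (Fin k → R) := fun w j =>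
      ∑ x, l x * w x ⟨j, lt_of_lt_of_le j.2 hk⟩
    refine Fintype.card_congr
      { toFun := fun w => (⟨w - s (ev w), ?_⟩, ev w)
        invFun := fun p => p.1.1 + s p.2
        left_inv := ?_
        right_inv := ?_ }
    · intro i hi
      have h1 := hs (ev w) i hi
      simp only [Pi.sub_apply, mul_sub, sum_sub_distrib, h1]
      simp [ev]
    · intro w
      simp
    · rintro ⟨⟨w, hw⟩, t⟩
      have hev : ev (w + s t) = t := by
        ext j
        have h2 := hs t ⟨j, lt_of_lt_of_le j.2 hk⟩ j.2
        have h3 := hw ⟨j, lt_of_lt_of_le j.2 hk⟩ j.2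
        simp only [ev, Pi.add_apply, mul_add, sum_add_distrib, h2, h3, zero_add]
      refine Prod.ext (Subtype.ext ?_) hev
      change w + s t - s (ev (w + s t)) = w
      rw [hev]; simp
  rw [hcard, Fintype.card_prod, Fintype.card_subtype]
  simp

/-- number of coefficient vectors with given support -/
lemma card_supp (D : Finset V) :
    (univ.filter (fun l : V → R => supp l = D)).card = (Fintype.card R - 1) ^ D.card := by
  classical
  have h : univ.filter (fun l : V → R => supp l = D) =
      Fintype.piFinset (fun x : V => if x ∈ D then (univ.erase (0 : R)) else {0}) := by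
    ext l
    simp only [mem_filter, mem_univ, true_and, Fintype.mem_piFinset]
    constructor
    · intro h x
      by_cases hx : x ∈ D
      · have : x ∈ supp l := by rw [h]; exact hx
        rw [mem_supp] at this
        simp [hx, this]
      · have : x ∉ supp l := by rw [h]; exact hx
        rw [mem_supp, not_not] at this
        simp [hx, this]
    · intro h
      ext x
      rw [mem_supp]
      have := h x
      by_cases hx : x ∈ D
      · simp [hx] at this; simp [hx, this]
      · simp [hx] at this; simp [hx, this]
  rw [h, Fintype.card_piFinset]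
  have h2 : ∀ x : V, (if x ∈ D then (univ.erase (0 : R)) else {0}).card =
      if x ∈ D then (Fintype.card R - 1) else 1 := by
    intro x; split_ifs <;> simp [card_erase_of_mem]
  simp_rw [h2]
  rw [prod_ite]
  simp

/-- union bound over dependencies, up to scaling by units -/
lemma card_exists_dep {k : ℕ} (hk : k ≤ n) (D : Finset V) :
    (univ.filter (fun w : V → Fin n → R => ∃ l : V → R, Unimod l ∧ supp l = D ∧ Dep k w l)).card
      * (Fintype.card Rˣ) * (Fintype.card R) ^ k
      ≤ (Fintype.card R - 1) ^ D.card * Fintype.card (V → Fin n → R) := by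
  classical
  set A := univ.filter (fun w : V → Fin n → R => ∃ l : V → R, Unimod l ∧ supp l = D ∧ Dep k w l)
    with hA
  set B := (univ.filter (fun p : (V → R) × (V → Fin n → R) =>
    Unimod p.1 ∧ supp p.1 = D ∧ Dep k p.2 p.1)) with hB
  have h1 : A.card * Fintype.card Rˣ ≤ B.card := by
    have hch : ∀ w : V → Fin n → R, ∃ l : V → R, w ∈ A → (Unimod l ∧ supp l = D ∧ Dep k w l) := by
      intro w
      by_cases hw : w ∈ A
      · rw [hA, mem_filter] at hw
        obtain ⟨l, hl⟩ := hw.2
        exact ⟨l, fun _ => hl⟩
      · exact ⟨0, fun h => absurd h hw⟩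
    choose lam hlam using hch
    have : A.card * Fintype.card Rˣ = (A ×ˢ (univ : Finset Rˣ)).card := by
      rw [card_product, card_univ]
    rw [this]
    refine card_le_card_of_injOn (fun p => ((fun x => (p.2 : R) * lam p.1 x), p.1)) ?_ ?_
    · rintro ⟨w, u⟩ hp
      simp only [coe_product, Set.mem_prod, mem_coe, mem_univ, and_true] at hp
      obtain ⟨⟨c, hc⟩, hs, hd⟩ := hlam w hp
      simp only [hB, coe_filter, mem_univ, true_and, Set.mem_ofPred_eq]
      refine ⟨⟨fun x => (↑u⁻¹ : R) * c x, ?_⟩, ?_, ?_⟩
      · rw [← hc]
        refine sum_congr rfl fun x _ => ?_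
        have : (↑u⁻¹ : R) * c x * ((u : R) * lam w x) = ((↑u⁻¹ : R) * u) * (c x * lam w x) := by ring
        rw [this, Units.inv_mul, one_mul]
      · rw [← hs]
        ext x
        simp [mem_supp]
      · intro i hi
        have := hd i hi
        simp_rw [mul_assoc]
        rw [← mul_sum, this, mul_zero]
    · rintro ⟨w, u⟩ hp ⟨w', u'⟩ hp' h
      simp only [coe_product, Set.mem_prod, mem_coe, mem_univ, and_true] at hp hp'
      simp only [Prod.mk.injEq] at h
      obtain ⟨h1, h2⟩ := h
      subst h2
      obtain ⟨⟨c, hc⟩, hs, hd⟩ := hlam w hp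
      have : (u : R) = (u' : R) := by
        have e1 : ∑ x, c x * ((u : R) * lam w x) = u := by
          have : ∀ x, c x * ((u : R) * lam w x) = u * (c x * lam w x) := fun x => by ring
          simp_rw [this]; rw [← mul_sum, hc, mul_one]
        have e2 : ∑ x, c x * ((u' : R) * lam w x) = u' := by
          have : ∀ x, c x * ((u' : R) * lam w x) = u' * (c x * lam w x) := fun x => by ring
          simp_rw [this]; rw [← mul_sum, hc, mul_one]
        rw [← e1, ← e2]
        refine sum_congr rfl fun x _ => ?_
        rw [congrFun h1 x]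
      simp [Units.ext this]
  have h2 : B.card * (Fintype.card R) ^ k ≤
      (Fintype.card R - 1) ^ D.card * Fintype.card (V → Fin n → R) := by
    have hBs : B.card = ∑ l ∈ univ.filter (fun l : V → R => Unimod l ∧ supp l = D),
        (univ.filter (fun w : V → Fin n → R => Dep k w l)).card := by
      rw [hB, card_eq_sum_card_fiberwise (f := fun p : (V → R) × (V → Fin n → R) => p.1)
        (t := univ.filter (fun l : V → R => Unimod l ∧ supp l = D))]
      · refine sum_congr rfl fun l hl => ?_
        rw [mem_filter] at hl
        refine card_bij (fun p _ => p.2) ?_ ?_ ?_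
        · rintro ⟨l', w⟩ hp
          simp only [mem_filter, mem_univ, true_and] at hp ⊢
          obtain ⟨⟨_, _, h⟩, h'⟩ := hp
          rw [← h']; exact h
        · rintro ⟨l1, w1⟩ hp ⟨l2, w2⟩ hp' h
          simp only [mem_filter, mem_univ, true_and] at hp hp' h
          simp [hp.2, hp'.2, h]
        · intro w hw
          simp only [mem_filter, mem_univ, true_and] at hw
          exact ⟨(l, w), by simp [hl.2.1, hl.2.2, hw], rfl⟩
      · rintro ⟨l, w⟩ hp
        simp only [coe_filter, mem_univ, true_and, Set.mem_ofPred_eq] at hp ⊢
        exact ⟨hp.1, hp.2.1⟩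
    rw [hBs, sum_mul]
    have : ∀ l ∈ univ.filter (fun l : V → R => Unimod l ∧ supp l = D),
        (univ.filter (fun w : V → Fin n → R => Dep k w l)).card * (Fintype.card R) ^ k
          = Fintype.card (V → Fin n → R) := by
      intro l hl
      rw [mem_filter] at hl
      exact card_dep hk hl.2.1
    rw [sum_congr rfl this, sum_const, smul_eq_mul]
    refine Nat.mul_le_mul_right _ ?_
    rw [← card_supp D]
    refine card_le_card ?_
    intro l hl
    simp only [mem_filter, mem_univ, true_and] at hl ⊢
    exact hl.2
  calc A.card * Fintype.card Rˣ * Fintype.card R ^ k ≤ B.card * Fintype.card R ^ k :=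
        Nat.mul_le_mul_right _ h1
    _ ≤ _ := h2

end Dep

end Pool.Agent.Helper4.Turan
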