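import Mathlib

/-!
Turan systems, averaging, symmetrisation by a random permutation.
-/

namespace Pool.Agent.Helper4.Turan

open Finset
open scoped Classical

set_option linter.unusedSectionVars false

/-- `H` is a Turan `(r+1, r)`-system on the finite set `Fin n` -/
def IsSystem {n : ℕ} (r : ℕ) (H : Finset (Finset (Fin n))) : Prop :=
  (∀ e ∈ H, e.card = r) ∧ ∀ S : Finset (Fin n), S.card = r + 1 → ∃ z ∈ S, S.erase z ∈ H

/-- systems of density at most `t` exist on every number of vertices -/
def Achieves (r : ℕ) (t : ℝ) : Prop :=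
  ∀ n : ℕ, ∃ H : Finset (Finset (Fin n)), IsSystem r H ∧ (H.card : ℝ) ≤ t * (n.choose r : ℝ)

lemma Achieves.mono {r : ℕ} {t t' : ℝ} (h : Achieves r t) (htt' : t ≤ t') : Achieves r t' := by
  intro n
  obtain ⟨H, h1, h2⟩ := h n
  exact ⟨H, h1, h2.trans (mul_le_mul_of_nonneg_right htt' (Nat.cast_nonneg _))⟩

lemma achieves_one (r : ℕ) : Achieves r 1 := by
  intro n
  refine ⟨(univ : Finset (Fin n)).powersetCard r, ⟨?_, ?_⟩, ?_⟩
  · intro e he
    exact (mem_powersetCard.1 he).2
  · intro S hS
    have : S.Nonempty := by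
      rw [← card_pos]; omega
    obtain ⟨z, hz⟩ := this
    refine ⟨z, hz, ?_⟩
    rw [mem_powersetCard]
    exact ⟨subset_univ _, by rw [card_erase_of_mem hz]; omega⟩
  · simp

/-- averaging: if every `r`-set is in `H ω` with (weighted) probability at most `t`, then some
`H ω` has density at most `t` -/
lemma exists_le_of_avg {n r : ℕ} {Ω : Type} [Fintype Ω] (p : Ω → ℝ) (hp : ∀ ω, 0 ≤ p ω)
    (hP : 0 < ∑ ω, p ω) (H : Ω → Finset (Finset (Fin n))) (hH : ∀ ω, IsSystem r (H ω)) (t : ℝ)
    (ht : ∀ X : Finset (Fin n), X.card = r →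
      ∑ ω, p ω * (if X ∈ H ω then (1:ℝ) else 0) ≤ t * ∑ ω, p ω) :
    ∃ H : Finset (Finset (Fin n)), IsSystem r H ∧ (H.card : ℝ) ≤ t * (n.choose r : ℝ) := by
  by_contra hcon
  push Not at hcon
  have h1 : ∀ ω, p ω * (t * (n.choose r : ℝ)) ≤ p ω * ((H ω).card : ℝ) := fun ω =>
    mul_le_mul_of_nonneg_left (hcon (H ω) (hH ω)).le (hp ω)
  have h2 : ∑ ω, p ω * (t * (n.choose r : ℝ)) < ∑ ω, p ω * ((H ω).card : ℝ) := by
    refine sum_lt_sum (fun ω _ => h1 ω) ?_
    by_contra hc
    push Not at hc
    have : ∀ ω, p ω ≤ 0 := by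
      intro ω
      by_contra hpos
      push Not at hpos
      have h3 := hc ω (mem_univ _)
      have h4 := mul_lt_mul_of_pos_left (hcon (H ω) (hH ω)) hpos
      linarith
    have : ∑ ω, p ω ≤ 0 := sum_nonpos fun ω _ => this ω
    linarith
  have h3 : ∀ ω, ((H ω).card : ℝ) =
      ∑ X ∈ (univ : Finset (Fin n)).powersetCard r, (if X ∈ H ω then (1:ℝ) else 0) := by
    intro ω
    rw [← sum_filter, sum_const, nsmul_eq_mul, mul_one]
    congr 2
    ext X
    rw [mem_filter, mem_powersetCard]
    exact ⟨fun h => ⟨⟨subset_univ _, (hH ω).1 _ h⟩, h⟩, fun h => h.2⟩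
  have h4 : ∑ ω, p ω * ((H ω).card : ℝ) ≤ (t * ∑ ω, p ω) * (n.choose r : ℝ) := by
    calc ∑ ω, p ω * ((H ω).card : ℝ)
        = ∑ ω, ∑ X ∈ (univ : Finset (Fin n)).powersetCard r,
          p ω * (if X ∈ H ω then (1:ℝ) else 0) := by
          refine sum_congr rfl fun ω _ => ?_
          rw [h3, mul_sum]
      _ = ∑ X ∈ (univ : Finset (Fin n)).powersetCard r,
          ∑ ω, p ω * (if X ∈ H ω then (1:ℝ) else 0) := sum_comm
      _ ≤ ∑ X ∈ (univ : Finset (Fin n)).powersetCard r, t * ∑ ω, p ω :=
          sum_le_sum fun X hX => ht X (mem_powersetCard.1 hX).2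
      _ = (t * ∑ ω, p ω) * (n.choose r : ℝ) := by
          rw [sum_const, card_powersetCard, card_univ, Fintype.card_fin, nsmul_eq_mul, mul_comm]
  rw [← sum_mul] at h2
  have : (∑ ω, p ω) * (t * (n.choose r : ℝ)) = (t * ∑ ω, p ω) * (n.choose r : ℝ) := by ring
  linarith

section Perm

variable {n : ℕ}

/-- the set `X` is mapped into the family `H` by the permutation `s` -/
def InH (H : Finset (Finset (Fin n))) (s : Equiv.Perm (Fin n)) (X : Finset (Fin n)) : Prop :=
  X.map s.toEmbedding ∈ H

lemma exists_perm_map {X Y : Finset (Fin n)} (h : X.card = Y.card) :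
    ∃ s : Equiv.Perm (Fin n), X.map s.toEmbedding = Y := by
  have e : {x // x ∈ X} ≃ {x // x ∈ Y} := Fintype.equivOfCardEq (by simp [h])
  refine ⟨e.extendSubtype, ?_⟩
  have hsub : X.map e.extendSubtype.toEmbedding ⊆ Y := by
    intro y hy
    rw [Finset.mem_map] at hy
    obtain ⟨x, hx, rfl⟩ := hy
    exact e.extendSubtype_mem x hx
  exact eq_of_subset_of_card_le hsub (by rw [card_map, h])

lemma card_perm_map {X Y : Finset (Fin n)} (h : X.card = Y.card) :
    (univ.filter (fun s : Equiv.Perm (Fin n) => X.map s.toEmbedding = Y)).card *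
      n.choose X.card = n.factorial := by
  -- all fibres have the same size
  have hfib : ∀ Z ∈ (univ : Finset (Fin n)).powersetCard X.card,
      (univ.filter (fun s : Equiv.Perm (Fin n) => X.map s.toEmbedding = Z)).card =
      (univ.filter (fun s : Equiv.Perm (Fin n) => X.map s.toEmbedding = Y)).card := by
    intro Z hZ
    have hZc : Z.card = Y.card := by rw [(mem_powersetCard.1 hZ).2, h]
    obtain ⟨g, hg⟩ := exists_perm_map hZc
    refine card_bij' (fun s _ => s.trans g) (fun s _ => s.trans g.symm) ?_ ?_ ?_ ?_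
    · intro s hs
      simp only [mem_filter, mem_univ, true_and] at hs ⊢
      rw [← hg, ← hs, map_map]
      rfl
    · intro s hs
      simp only [mem_filter, mem_univ, true_and] at hs ⊢
      have : Y.map g.symm.toEmbedding = Z := by
        rw [← hg, map_map]
        ext x
        simp
      rw [← this, ← hs, map_map]
      rfl
    · intro s _
      ext x; simp
    · intro s _
      ext x; simp
  have hsum : ∑ Z ∈ (univ : Finset (Fin n)).powersetCard X.card,
      (univ.filter (fun s : Equiv.Perm (Fin n) => X.map s.toEmbedding = Z)).card =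
      n.factorial := by
    rw [← card_eq_sum_card_fiberwise (f := fun s : Equiv.Perm (Fin n) => X.map s.toEmbedding)
      (s := univ)]
    · rw [card_univ, Fintype.card_perm, Fintype.card_fin]
    · intro s _
      simp
  rw [sum_congr rfl hfib, sum_const, card_powersetCard, card_univ, Fintype.card_fin,
    smul_eq_mul] at hsum
  rw [mul_comm]; exact hsum

/-- a random permutation maps a fixed set into the family with probability at most the density -/
lemma card_InH_le {j : ℕ} {H : Finset (Finset (Fin n))} (hH : ∀ e ∈ H, e.card = j) {t : ℝ}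
    (ht : (H.card : ℝ) ≤ t * (n.choose j : ℝ)) {X : Finset (Fin n)} (hX : X.card = j) :
    ((univ.filter (fun s : Equiv.Perm (Fin n) => InH H s X)).card : ℝ) ≤
      t * (Fintype.card (Equiv.Perm (Fin n)) : ℝ) := by
  rw [Fintype.card_perm, Fintype.card_fin]
  have h1 : (univ.filter (fun s : Equiv.Perm (Fin n) => InH H s X)).card =
      ∑ Y ∈ H, (univ.filter (fun s : Equiv.Perm (Fin n) => X.map s.toEmbedding = Y)).card := by
    rw [card_eq_sum_card_fiberwise (f := fun s : Equiv.Perm (Fin n) => X.map s.toEmbedding)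
      (t := H)]
    · refine sum_congr rfl fun Y hY => ?_
      congr 1
      ext s
      rw [mem_filter, mem_filter, mem_filter]
      constructor
      · rintro ⟨_, h⟩; exact ⟨mem_univ _, h⟩
      · rintro ⟨_, h⟩
        refine ⟨⟨mem_univ _, ?_⟩, h⟩
        unfold InH
        rw [h]; exact hY
    · intro s hs
      have hs' := (mem_filter.1 (mem_coe.1 hs)).2
      exact hs'
  have hpos : 0 < n.choose j := by
    refine Nat.choose_pos ?_
    rw [← hX]
    simpa using card_le_univ X
  have h2 : (univ.filter (fun s : Equiv.Perm (Fin n) => InH H s X)).card * n.choose j =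
      H.card * n.factorial := by
    rw [h1, sum_mul, ← smul_eq_mul H.card, ← sum_const]
    refine sum_congr rfl fun Y hY => ?_
    have := card_perm_map (X := X) (Y := Y) (by rw [hX, hH Y hY])
    rw [hX] at this
    exact this
  have h2' : ((univ.filter (fun s : Equiv.Perm (Fin n) => InH H s X)).card : ℝ) * (n.choose j : ℝ)
      = (H.card : ℝ) * (n.factorial : ℝ) := by exact_mod_cast h2
  have hpos' : (0:ℝ) < (n.choose j : ℝ) := by exact_mod_cast hpos
  refine le_of_mul_le_mul_right ?_ hpos'
  rw [h2']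
  calc (H.card : ℝ) * (n.factorial : ℝ) ≤ (t * (n.choose j : ℝ)) * (n.factorial : ℝ) :=
        mul_le_mul_of_nonneg_right ht (Nat.cast_nonneg _)
    _ = _ := by ring

lemma InH_cover {r : ℕ} {H : Finset (Finset (Fin n))} (hH : IsSystem r H)
    (s : Equiv.Perm (Fin n)) {S : Finset (Fin n)} (hS : S.card = r + 1) :
    ∃ z ∈ S, InH H s (S.erase z) := by
  obtain ⟨y, hy, hyH⟩ := hH.2 (S.map s.toEmbedding) (by simpa using hS)
  rw [Finset.mem_map] at hy
  obtain ⟨z, hz, rfl⟩ := hy
  refine ⟨z, hz, ?_⟩
  unfold InH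
  have : (S.erase z).map s.toEmbedding = (S.map s.toEmbedding).erase (s.toEmbedding z) := by
    ext x
    simp only [Finset.mem_map, mem_erase]
    constructor
    · rintro ⟨a, ⟨h1, h2⟩, rfl⟩
      exact ⟨fun h => h1 (s.toEmbedding.injective h), a, h2, rfl⟩
    · rintro ⟨h1, a, h2, rfl⟩
      exact ⟨a, ⟨fun h => h1 (by rw [h]), h2⟩, rfl⟩
  rw [this]; exact hyH

end Perm

/-- `t(r+2, r+1) ≤ t(r+1, r)` -/
lemma Achieves.succ {r : ℕ} {t : ℝ} (h : Achieves r t) : Achieves (r + 1) t := by
  intro n
  obtain ⟨H, hH, hcard⟩ := h n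
  -- remove the smallest element
  let f : Finset (Fin n) → Finset (Fin n) := fun X =>
    if hX : X.Nonempty then X.erase (X.min' hX) else ∅
  refine exists_le_of_avg (Ω := Equiv.Perm (Fin n)) (fun _ => 1) (fun _ => zero_le_one) ?_
    (fun s => (univ.powersetCard (r+1)).filter (fun X => InH H s (f X))) ?_ t ?_
  · simp only [sum_const, nsmul_eq_mul, mul_one, card_univ]
    exact_mod_cast Fintype.card_pos
  · intro s
    refine ⟨?_, ?_⟩
    · intro e he
      exact (mem_powersetCard.1 (mem_filter.1 he).1).2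
    · intro S hS
      have hne : S.Nonempty := by rw [← card_pos]; omega
      obtain ⟨z, hz, hzH⟩ := InH_cover hH s (S := S.erase (S.min' hne))
        (by rw [card_erase_of_mem (min'_mem _ _)]; omega)
      rw [mem_erase] at hz
      refine ⟨z, hz.2, ?_⟩
      rw [mem_filter, mem_powersetCard]
      refine ⟨⟨subset_univ _, by rw [card_erase_of_mem hz.2]; omega⟩, ?_⟩
      have hne2 : (S.erase z).Nonempty := by
        rw [← card_pos, card_erase_of_mem hz.2]; omega
      have hmin : (S.erase z).min' hne2 = S.min' hne := by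
        refine le_antisymm ?_ ?_
        · exact min'_le _ _ (mem_erase.2 ⟨fun h => hz.1 h.symm, min'_mem _ _⟩)
        · exact min'_le _ _ (mem_of_mem_erase (min'_mem _ hne2))
      have : f (S.erase z) = (S.erase (S.min' hne)).erase z := by
        simp only [f, dif_pos hne2, hmin]
        rw [erase_right_comm]
      rw [this]
      exact hzH
  · intro X hX
    have hne : X.Nonempty := by rw [← card_pos]; omega
    have hf : (f X).card = r := by
      simp only [f, dif_pos hne]
      rw [card_erase_of_mem (min'_mem _ _)]; omega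
    have h1 := card_InH_le hH.1 hcard hf
    simp only [one_mul, sum_const, nsmul_eq_mul, mul_one, card_univ]
    refine le_trans (le_of_eq ?_) h1
    rw [← sum_filter, sum_const, nsmul_eq_mul, mul_one]
    congr 2
    ext s
    simp [hX]

lemma Achieves.of_le {r r' : ℕ} {t : ℝ} (h : Achieves r t) (hr : r ≤ r') : Achieves r' t := by
  induction r', hr using Nat.le_induction with
  | base => exact h
  | succ r' _ ih => exact ih.succ

end Pool.Agent.Helper4.Turan
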