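import Pool.Agent.Helper4.Star
import Pool.Agent.Helper4.System

/-!
The recursive construction of Turan systems from linear dependencies.
-/

namespace Pool.Agent.Helper4.Turan

open Finset
open scoped Classical

set_option linter.unusedSectionVars false

section Sums

variable {V : Type} [Fintype V] [DecidableEq V]

lemma sum_inter (X : Finset V) (f : Finset V → ℝ) {a b : ℝ} (hab : a + b = 1) :
    ∑ C : Finset V, a ^ C.card * b ^ (Fintype.card V - C.card) * f (X ∩ C) =
      ∑ A ∈ X.powerset, a ^ A.card * b ^ (X.card - A.card) * f A := by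
  rw [← Finset.sum_fiberwise_of_maps_to (s := univ) (t := X.powerset) (g := fun C => X ∩ C)
    (fun C _ => mem_powerset.2 inter_subset_left)]
  refine sum_congr rfl fun A hA => ?_
  rw [mem_powerset] at hA
  have h1 : ∑ E ∈ (univ \ X).powerset, a ^ E.card * b ^ ((univ \ X).card - E.card) = 1 := by
    rw [Finset.sum_pow_mul_eq_add_pow, hab, one_pow]
  have h2 : ∑ C ∈ univ.filter (fun C => X ∩ C = A),
      a ^ C.card * b ^ (Fintype.card V - C.card) * f (X ∩ C) =
      ∑ E ∈ (univ \ X).powerset, (a ^ A.card * b ^ (X.card - A.card) * f A) *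
        (a ^ E.card * b ^ ((univ \ X).card - E.card)) := by
    refine sum_bij' (fun C _ => C \ X) (fun E _ => A ∪ E) ?_ ?_ ?_ ?_ ?_
    · intro C _
      rw [mem_powerset]
      exact sdiff_subset_sdiff (subset_univ _) (Subset.refl _)
    · intro E hE
      rw [mem_powerset] at hE
      simp only [mem_filter, mem_univ, true_and]
      ext x
      simp only [mem_inter, mem_union]
      constructor
      · rintro ⟨h1, h2 | h2⟩
        · exact h2
        · exact absurd h1 (mem_sdiff.1 (hE h2)).2
      · intro h; exact ⟨hA h, Or.inl h⟩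
    · intro C hC
      simp only [mem_filter, mem_univ, true_and] at hC
      rw [← hC]
      ext x
      simp only [mem_union, mem_inter, mem_sdiff]
      tauto
    · intro E hE
      rw [mem_powerset] at hE
      ext x
      simp only [mem_sdiff, mem_union]
      constructor
      · rintro ⟨h1 | h1, h2⟩
        · exact absurd (hA h1) h2
        · exact h1
      · intro h
        exact ⟨Or.inr h, (mem_sdiff.1 (hE h)).2⟩
    · intro C hC
      simp only [mem_filter, mem_univ, true_and] at hC
      have hc : C.card = A.card + (C \ X).card := by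
        rw [← hC, add_comm, inter_comm, card_sdiff_add_card_inter]
      have hu : (univ \ X : Finset V).card = Fintype.card V - X.card := by
        rw [card_sdiff_of_subset (subset_univ _), card_univ]
      have hle1 : A.card ≤ X.card := card_le_card hA
      have hle2 : (C \ X).card ≤ (univ \ X : Finset V).card :=
        card_le_card (sdiff_subset_sdiff (subset_univ _) (Subset.refl _))
      have hle3 : X.card ≤ Fintype.card V := card_le_univ X
      have he : Fintype.card V - C.card =
          (X.card - A.card) + ((univ \ X : Finset V).card - (C \ X).card) := by omega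
      rw [hC, he, hc, pow_add, pow_add]
      ring
  rw [h2, ← mul_sum, h1, mul_one]

lemma sum_nested (X : Finset V) (f : Finset V → ℝ) (a b x y : ℝ) :
    ∑ A ∈ X.powerset, a ^ A.card * b ^ (X.card - A.card) *
      ∑ E ∈ A.powerset, x ^ E.card * y ^ (A.card - E.card) * f E =
      ∑ E ∈ X.powerset, (a * x) ^ E.card * (a * y + b) ^ (X.card - E.card) * f E := by
  simp_rw [mul_sum]
  rw [Finset.sum_sigma']
  have h1 : ∀ E ∈ X.powerset, (a * x) ^ E.card * (a * y + b) ^ (X.card - E.card) * f E =
      ∑ G ∈ (X \ E).powerset, (a * x) ^ E.card * ((a * y) ^ G.card *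
        b ^ ((X \ E).card - G.card)) * f E := by
    intro E hE
    rw [mem_powerset] at hE
    rw [← sum_mul, ← mul_sum, Finset.sum_pow_mul_eq_add_pow, card_sdiff_of_subset hE]
  rw [sum_congr rfl h1, Finset.sum_sigma']
  refine sum_bij' (fun p _ => ⟨p.2, p.1 \ p.2⟩) (fun p _ => ⟨p.1 ∪ p.2, p.1⟩) ?_ ?_ ?_ ?_ ?_
  · rintro ⟨A, E⟩ hp
    simp only [mem_sigma, mem_powerset] at hp ⊢
    exact ⟨hp.2.trans hp.1, sdiff_subset_sdiff hp.1 (Subset.refl _)⟩
  · rintro ⟨E, G⟩ hp
    simp only [mem_sigma, mem_powerset] at hp ⊢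
    exact ⟨union_subset hp.1 (hp.2.trans sdiff_subset), subset_union_left⟩
  · rintro ⟨A, E⟩ hp
    simp only [mem_sigma, mem_powerset] at hp ⊢
    rw [union_sdiff_of_subset hp.2]
  · rintro ⟨E, G⟩ hp
    simp only [mem_sigma, mem_powerset] at hp ⊢
    have : (E ∪ G) \ E = G := by
      rw [union_sdiff_left]
      refine sdiff_eq_self_of_disjoint ?_
      rw [disjoint_left]
      intro z hz hz'
      exact (mem_sdiff.1 (hp.2 hz)).2 hz'
    rw [this]
  · rintro ⟨A, E⟩ hp
    simp only [mem_sigma, mem_powerset] at hp ⊢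
    have h2 : (A \ E).card = A.card - E.card := card_sdiff_of_subset hp.2
    have h3 : (X \ E).card = X.card - E.card := card_sdiff_of_subset (hp.2.trans hp.1)
    have h4 : E.card ≤ A.card := card_le_card hp.2
    have h5 : A.card ≤ X.card := card_le_card hp.1
    have h6 : (X \ E).card - (A \ E).card = X.card - A.card := by omega
    rw [h6, h2]
    have h7 : A.card = E.card + (A.card - E.card) := by omega
    nth_rewrite 1 [h7]
    rw [pow_add, mul_pow, mul_pow]
    ring

end Sums

section Rec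

variable {n : ℕ} {R : Type} [CommRing R] [Fintype R]

/-- the condition defining the new system, in terms of `A = X ∩ C`, `B = X \ C` -/
def Cond (H : ℕ → Finset (Finset (Fin n))) (s : Equiv.Perm (Fin n)) (w : Fin n → Fin n → R)
    (A B : Finset (Fin n)) : Prop :=
  A = ∅ ∨ B = ∅ ∨
  (∃ E ⊆ A, (∃ l : Fin n → R, Unimod l ∧ supp l = A \ E ∧ Dep A.card w l) ∧
    InH (H E.card) s E) ∨
  ((∃ l : Fin n → R, Unimod l ∧ supp l = A ∧ Dep (A.card - 1) w l) ∧ InH (H B.card) s B)

/-- the new family -/
noncomputable def newH (r : ℕ) (H : ℕ → Finset (Finset (Fin n))) (C : Finset (Fin n))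
    (s : Equiv.Perm (Fin n)) (w : Fin n → Fin n → R) : Finset (Finset (Fin n)) :=
  (univ.powersetCard r).filter (fun X => Cond H s w (X ∩ C) (X \ C))

lemma newH_isSystem (hR : Star R) {r : ℕ} {H : ℕ → Finset (Finset (Fin n))}
    (hH : ∀ j < r, IsSystem j (H j)) (C : Finset (Fin n)) (s : Equiv.Perm (Fin n))
    (w : Fin n → Fin n → R) : IsSystem r (newH r H C s w) := by
  refine ⟨?_, ?_⟩
  · intro e he
    exact (mem_powersetCard.1 (mem_filter.1 he).1).2
  · intro S hS
    have hsplit : (S \ C).card + (S ∩ C).card = S.card := card_sdiff_add_card_inter S C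
    have key : ∀ z ∈ S, Cond H s w (S.erase z ∩ C) (S.erase z \ C) →
        S.erase z ∈ newH r H C s w := by
      intro z hz hc
      unfold newH
      rw [mem_filter, mem_powersetCard]
      exact ⟨⟨subset_univ _, by rw [card_erase_of_mem hz]; omega⟩, hc⟩
    have hne : S.Nonempty := by rw [← card_pos]; omega
    by_cases hA : S ∩ C = ∅
    · obtain ⟨z, hz⟩ := hne
      refine ⟨z, hz, key z hz (Or.inl ?_)⟩
      rw [eq_empty_iff_forall_notMem] at hA ⊢
      intro x hx
      exact hA x (mem_inter.2 ⟨mem_of_mem_erase (mem_inter.1 hx).1, (mem_inter.1 hx).2⟩)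
    by_cases hB : S \ C = ∅
    · obtain ⟨z, hz⟩ := hne
      refine ⟨z, hz, key z hz (Or.inr (Or.inl ?_))⟩
      rw [eq_empty_iff_forall_notMem] at hB ⊢
      intro x hx
      exact hB x (mem_sdiff.2 ⟨mem_of_mem_erase (mem_sdiff.1 hx).1, (mem_sdiff.1 hx).2⟩)
    have hAc : 0 < (S ∩ C).card := by
      rw [card_pos]; exact nonempty_iff_ne_empty.2 hA
    have hBc : 0 < (S \ C).card := by
      rw [card_pos]; exact nonempty_iff_ne_empty.2 hB
    obtain ⟨l, hl1, hl2, hl3⟩ := hR n ((S ∩ C).card - 1) (S ∩ C) w (by omega)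
    have hsub : supp l ⊆ S ∩ C := by
      intro x hx
      by_contra hx'
      exact (mem_supp.1 hx) (hl2 x hx')
    by_cases hfull : supp l = S ∩ C
    · -- a full circuit: remove an element outside `C`
      obtain ⟨z, hz, hzH⟩ := InH_cover (hH ((S \ C).card - 1) (by omega)) s (S := S \ C) (by omega)
      have hz' := mem_sdiff.1 hz
      have e1 : S.erase z ∩ C = S ∩ C := by
        ext x
        simp only [mem_inter, mem_erase]
        constructor
        · rintro ⟨⟨_, h1⟩, h2⟩; exact ⟨h1, h2⟩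
        · rintro ⟨h1, h2⟩
          exact ⟨⟨fun h => hz'.2 (h ▸ h2), h1⟩, h2⟩
      have e2 : S.erase z \ C = (S \ C).erase z := by
        ext x
        simp only [mem_sdiff, mem_erase]
        tauto
      refine ⟨z, hz'.1, key z hz'.1 (Or.inr (Or.inr (Or.inr ?_)))⟩
      rw [e1, e2]
      refine ⟨⟨l, hl1, hfull, hl3⟩, ?_⟩
      rw [card_erase_of_mem hz]
      exact hzH
    · -- remove a zero of the dependency
      have hZ : 0 < ((S ∩ C) \ supp l).card := by
        rw [card_pos, sdiff_nonempty]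
        intro h
        exact hfull (Subset.antisymm hsub h)
      have hZle : ((S ∩ C) \ supp l).card ≤ (S ∩ C).card := card_le_card sdiff_subset
      obtain ⟨z, hz, hzH⟩ := InH_cover (hH (((S ∩ C) \ supp l).card - 1) (by omega)) s
        (S := (S ∩ C) \ supp l) (by omega)
      have hz' := mem_sdiff.1 hz
      have hz'' := mem_inter.1 hz'.1
      have e1 : S.erase z ∩ C = (S ∩ C).erase z := by
        ext x
        simp only [mem_inter, mem_erase]
        tauto
      refine ⟨z, hz''.1, key z hz''.1 (Or.inr (Or.inr (Or.inl ?_)))⟩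
      rw [e1]
      refine ⟨((S ∩ C) \ supp l).erase z, ?_, ⟨l, hl1, ?_, ?_⟩, ?_⟩
      · exact erase_subset_erase _ sdiff_subset
      · ext x
        simp only [mem_sdiff, mem_erase, mem_inter]
        constructor
        · intro hx
          have h1 := mem_inter.1 (hsub hx)
          have h2 : x ≠ z := fun h => hz'.2 (h ▸ hx)
          exact ⟨⟨h2, h1⟩, fun h => h.2.2 hx⟩
        · rintro ⟨⟨h1, h2⟩, h3⟩
          by_contra hx
          exact h3 ⟨h1, h2, hx⟩
      · rw [card_erase_of_mem hz'.1]
        exact hl3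
      · rw [card_erase_of_mem hz]
        exact hzH

/-- real form of the union bound over dependencies -/
lemma card_exists_dep_real [Nontrivial R] {k : ℕ} (hk : k ≤ n) (D : Finset (Fin n)) :
    ((univ.filter (fun w : Fin n → Fin n → R =>
      ∃ l : Fin n → R, Unimod l ∧ supp l = D ∧ Dep k w l)).card : ℝ)
      ≤ ((Fintype.card R : ℝ) - 1) ^ D.card / ((Fintype.card Rˣ : ℝ) * (Fintype.card R : ℝ) ^ k) *
        (Fintype.card (Fin n → Fin n → R) : ℝ) := by
  have h := card_exists_dep (V := Fin n) (R := R) hk D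
  have hQ : 1 ≤ Fintype.card R := Fintype.card_pos
  have hu : 0 < (Fintype.card Rˣ : ℝ) := by exact_mod_cast Fintype.card_pos
  have hQ' : 0 < (Fintype.card R : ℝ) := by exact_mod_cast hQ
  rw [div_mul_eq_mul_div, le_div_iff₀ (mul_pos hu (pow_pos hQ' k))]
  have h2 : (((univ.filter (fun w : Fin n → Fin n → R =>
      ∃ l : Fin n → R, Unimod l ∧ supp l = D ∧ Dep k w l)).card * (Fintype.card Rˣ) *
      (Fintype.card R) ^ k : ℕ) : ℝ) ≤
      (((Fintype.card R - 1) ^ D.card * Fintype.card (Fin n → Fin n → R) : ℕ) : ℝ) := by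
    exact_mod_cast h
  push_cast [Nat.cast_sub hQ] at h2
  rw [← mul_assoc]
  convert h2 using 2

/-- probability that the condition holds, for given `A ≠ ∅`, `B ≠ ∅` -/
lemma card_cond_le [Nontrivial R] {r : ℕ} {H : ℕ → Finset (Finset (Fin n))} {t : ℕ → ℝ}
    (ht : ∀ j, 0 ≤ t j)
    (hH : ∀ j < r, IsSystem j (H j) ∧ ((H j).card : ℝ) ≤ t j * (n.choose j : ℝ))
    {A B : Finset (Fin n)} (hA : A ≠ ∅) (hB : B ≠ ∅) (hAr : A.card < r) (hBr : B.card < r) :
    ((univ.filter (fun q : Equiv.Perm (Fin n) × (Fin n → Fin n → R) =>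
      Cond H q.1 q.2 A B)).card : ℝ) ≤
    ((1 / (Fintype.card Rˣ : ℝ)) * ∑ E ∈ A.powerset, (1 / (Fintype.card R : ℝ)) ^ E.card *
        (1 - 1 / (Fintype.card R : ℝ)) ^ (A.card - E.card) * t E.card +
      ((Fintype.card R : ℝ) / (Fintype.card Rˣ : ℝ)) *
        (1 - 1 / (Fintype.card R : ℝ)) ^ A.card * t B.card) *
      (Fintype.card (Equiv.Perm (Fin n) × (Fin n → Fin n → R)) : ℝ) := by
  set Q : ℝ := (Fintype.card R : ℝ) with hQdef
  set u : ℝ := (Fintype.card Rˣ : ℝ) with hudef
  have hQ1 : 1 ≤ Fintype.card R := Fintype.card_pos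
  have hQ : 0 < Q := by rw [hQdef]; exact_mod_cast hQ1
  have hu : 0 < u := by rw [hudef]; exact_mod_cast Fintype.card_pos
  have hQge : 1 ≤ Q := by rw [hQdef]; exact_mod_cast hQ1
  set WD : Finset (Fin n) → Finset (Fin n → Fin n → R) := fun E => univ.filter (fun w =>
    ∃ l : Fin n → R, Unimod l ∧ supp l = A \ E ∧ Dep A.card w l) with hWD
  set SD : Finset (Fin n) → Finset (Equiv.Perm (Fin n)) := fun E => univ.filter (fun s =>
    InH (H E.card) s E) with hSD
  set W2 : Finset (Fin n → Fin n → R) := univ.filter (fun w =>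
    ∃ l : Fin n → R, Unimod l ∧ supp l = A ∧ Dep (A.card - 1) w l) with hW2
  have hsub : univ.filter (fun q : Equiv.Perm (Fin n) × (Fin n → Fin n → R) =>
      Cond H q.1 q.2 A B) ⊆ (A.powerset.biUnion (fun E => SD E ×ˢ WD E)) ∪ (SD B ×ˢ W2) := by
    rintro ⟨s, w⟩ hq
    rw [mem_filter] at hq
    rcases hq.2 with h | h | h | h
    · exact absurd h hA
    · exact absurd h hB
    · obtain ⟨E, hE, h1, h2⟩ := h
      rw [mem_union]; left
      rw [mem_biUnion]
      refine ⟨E, mem_powerset.2 hE, ?_⟩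
      rw [mem_product]
      exact ⟨mem_filter.2 ⟨mem_univ _, h2⟩, mem_filter.2 ⟨mem_univ _, h1⟩⟩
    · rw [mem_union]; right
      rw [mem_product]
      exact ⟨mem_filter.2 ⟨mem_univ _, h.2⟩, mem_filter.2 ⟨mem_univ _, h.1⟩⟩
  have hcard : ((univ.filter (fun q : Equiv.Perm (Fin n) × (Fin n → Fin n → R) =>
      Cond H q.1 q.2 A B)).card : ℝ) ≤
      ∑ E ∈ A.powerset, ((SD E).card : ℝ) * ((WD E).card : ℝ) +
        ((SD B).card : ℝ) * (W2.card : ℝ) := by
    have h1 := (card_le_card hsub).trans (card_union_le _ _)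
    have h2 : (A.powerset.biUnion (fun E => SD E ×ˢ WD E)).card ≤
        ∑ E ∈ A.powerset, (SD E ×ˢ WD E).card := card_biUnion_le
    have h3 := h1.trans (Nat.add_le_add_right h2 _)
    simp only [card_product] at h3
    exact_mod_cast h3
  refine hcard.trans ?_
  rw [Fintype.card_prod, Nat.cast_mul, add_mul]
  set P : ℝ := (Fintype.card (Equiv.Perm (Fin n)) : ℝ) with hPdef
  set W : ℝ := (Fintype.card (Fin n → Fin n → R) : ℝ) with hWdef
  have hP0 : 0 ≤ P := Nat.cast_nonneg _
  have hW0 : 0 ≤ W := Nat.cast_nonneg _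
  have hAn : A.card ≤ n := by simpa using card_le_univ A
  refine add_le_add ?_ ?_
  · rw [mul_sum, sum_mul]
    refine sum_le_sum fun E hE => ?_
    rw [mem_powerset] at hE
    have hEc : E.card ≤ A.card := card_le_card hE
    have h1 : ((SD E).card : ℝ) ≤ t E.card * P :=
      card_InH_le (hH E.card (by omega)).1.1 (hH E.card (by omega)).2 rfl
    have h2 : ((WD E).card : ℝ) ≤ (Q - 1) ^ (A \ E).card / (u * Q ^ A.card) * W :=
      card_exists_dep_real hAn (A \ E)
    rw [card_sdiff_of_subset hE] at h2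
    calc ((SD E).card : ℝ) * ((WD E).card : ℝ)
        ≤ (t E.card * P) * ((Q - 1) ^ (A.card - E.card) / (u * Q ^ A.card) * W) :=
          mul_le_mul h1 h2 (Nat.cast_nonneg _) (mul_nonneg (ht _) hP0)
      _ = _ := by
          have e1 : (1 - 1 / Q) ^ (A.card - E.card) = (Q - 1) ^ (A.card - E.card) /
              Q ^ (A.card - E.card) := by
            rw [← div_pow]; congr 1; field_simp
          have e2 : Q ^ A.card = Q ^ E.card * Q ^ (A.card - E.card) := by
            rw [← pow_add]; congr 1; omega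
          rw [e1, e2, one_div, one_div, inv_pow]
          have : Q ^ E.card ≠ 0 := (pow_pos hQ _).ne'
          have : Q ^ (A.card - E.card) ≠ 0 := (pow_pos hQ _).ne'
          field_simp
  · have h1 : ((SD B).card : ℝ) ≤ t B.card * P :=
      card_InH_le (hH B.card hBr).1.1 (hH B.card hBr).2 rfl
    have h2 : (W2.card : ℝ) ≤ (Q - 1) ^ A.card / (u * Q ^ (A.card - 1)) * W :=
      card_exists_dep_real (by omega) A
    calc ((SD B).card : ℝ) * (W2.card : ℝ)
        ≤ (t B.card * P) * ((Q - 1) ^ A.card / (u * Q ^ (A.card - 1)) * W) :=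
          mul_le_mul h1 h2 (Nat.cast_nonneg _) (mul_nonneg (ht _) hP0)
      _ = _ := by
          have hApos : 0 < A.card := card_pos.2 (nonempty_iff_ne_empty.2 hA)
          have e1 : (1 - 1 / Q) ^ A.card = (Q - 1) ^ A.card / Q ^ A.card := by
            rw [← div_pow]; congr 1; field_simp
          have e2 : Q ^ A.card = Q * Q ^ (A.card - 1) := by
            rw [← pow_succ']; congr 1; omega
          rw [e1, e2]
          have : Q ^ (A.card - 1) ≠ 0 := (pow_pos hQ _).ne'
          field_simp

/-- the recursion -/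
theorem recursion (R : Type) [CommRing R] [Fintype R] [Nontrivial R] (hR : Star R)
    {a b : ℝ} (ha : 0 ≤ a) (hb : 0 ≤ b)
    (hab : a + b = 1) {r : ℕ} {t : ℕ → ℝ} (ht : ∀ j, 0 ≤ t j)
    (hA : ∀ j < r, Achieves j (t j)) :
    Achieves r (a ^ r + b ^ r +
      (1 / (Fintype.card Rˣ : ℝ)) * ∑ j ∈ range r, (r.choose j : ℝ) *
        ((a / (Fintype.card R : ℝ)) ^ j * (1 - a / (Fintype.card R : ℝ)) ^ (r - j) * t j) +
      ((Fintype.card R : ℝ) / (Fintype.card Rˣ : ℝ)) * ∑ j ∈ Ico 1 r, (r.choose j : ℝ) *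
        (b ^ j * (a * (1 - 1 / (Fintype.card R : ℝ))) ^ (r - j) * t j)) := by
  intro n
  have hch : ∀ j : ℕ, ∃ H : Finset (Finset (Fin n)), j < r →
      (IsSystem j H ∧ (H.card : ℝ) ≤ t j * (n.choose j : ℝ)) := by
    intro j
    by_cases hj : j < r
    · obtain ⟨H, h1, h2⟩ := hA j hj n
      exact ⟨H, fun _ => ⟨h1, h2⟩⟩
    · exact ⟨∅, fun h => absurd h hj⟩
  choose H hH using hch
  set Q : ℝ := (Fintype.card R : ℝ) with hQdef
  set u : ℝ := (Fintype.card Rˣ : ℝ) with hudef
  have hQ1 : 1 ≤ Fintype.card R := Fintype.card_pos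
  have hQ : 0 < Q := by rw [hQdef]; exact_mod_cast hQ1
  have hu : 0 < u := by rw [hudef]; exact_mod_cast Fintype.card_pos
  have hQge : 1 ≤ Q := by rw [hQdef]; exact_mod_cast hQ1
  have hQinv : 0 ≤ 1 - 1 / Q := by
    rw [sub_nonneg, div_le_one hQ]; exact hQge
  set N : ℝ := (Fintype.card (Equiv.Perm (Fin n) × (Fin n → Fin n → R)) : ℝ) with hN
  have hNpos : 0 < N := by rw [hN]; exact_mod_cast Fintype.card_pos
  -- total weight
  have htot : ∑ ω : Finset (Fin n) × (Equiv.Perm (Fin n) × (Fin n → Fin n → R)),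
      a ^ ω.1.card * b ^ (Fintype.card (Fin n) - ω.1.card) = N := by
    rw [Fintype.sum_prod_type]
    simp only [sum_const, nsmul_eq_mul, card_univ]
    rw [← mul_sum]
    have := sum_inter (V := Fin n) ∅ (fun _ => 1) hab
    simp only [mul_one, powerset_empty, sum_singleton, card_empty, pow_zero, Nat.sub_zero] at this
    rw [this, mul_one]
  refine exists_le_of_avg
    (Ω := Finset (Fin n) × (Equiv.Perm (Fin n) × (Fin n → Fin n → R)))
    (fun ω => a ^ ω.1.card * b ^ (Fintype.card (Fin n) - ω.1.card))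
    (fun ω => mul_nonneg (pow_nonneg ha _) (pow_nonneg hb _))
    (by rw [htot]; exact hNpos)
    (fun ω => newH r H ω.1 ω.2.1 ω.2.2)
    (fun ω => newH_isSystem hR (fun j hj => (hH j hj).1) ω.1 ω.2.1 ω.2.2) _ ?_
  intro X hX
  rw [htot]
  -- the bound for a given trace
  set f : Finset (Fin n) → ℝ := fun A =>
    ((univ.filter (fun q : Equiv.Perm (Fin n) × (Fin n → Fin n → R) =>
      Cond H q.1 q.2 A (X \ A))).card : ℝ) with hf
  have hsum : ∑ ω : Finset (Fin n) × (Equiv.Perm (Fin n) × (Fin n → Fin n → R)),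
      a ^ ω.1.card * b ^ (Fintype.card (Fin n) - ω.1.card) *
        (if X ∈ newH r H ω.1 ω.2.1 ω.2.2 then (1:ℝ) else 0) =
      ∑ A ∈ X.powerset, a ^ A.card * b ^ (X.card - A.card) * f A := by
    rw [← sum_inter X f hab, Fintype.sum_prod_type]
    refine sum_congr rfl fun C _ => ?_
    simp only
    rw [← mul_sum, ← sum_filter, sum_const, nsmul_eq_mul, mul_one]
    congr 3
    ext q
    simp only [mem_filter, mem_univ, true_and, newH, mem_powersetCard, subset_univ, hX]
    rw [sdiff_inter_self_left]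
  rw [hsum]
  -- auxiliary functions
  set t1 : ℕ → ℝ := fun j => if j < r then t j else 0 with ht1
  set t2 : ℕ → ℝ := fun j => if 1 ≤ j ∧ j < r then t j else 0 with ht2
  have ht1n : ∀ j, 0 ≤ t1 j := fun j => by
    simp only [ht1]; split_ifs
    · exact ht j
    · exact le_rfl
  have ht2n : ∀ j, 0 ≤ t2 j := fun j => by
    simp only [ht2]; split_ifs
    · exact ht j
    · exact le_rfl
  set F1 : Finset (Fin n) → ℝ := fun A => ∑ E ∈ A.powerset, (1 / Q) ^ E.card *
        (1 - 1 / Q) ^ (A.card - E.card) * t1 E.card with hF1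
  set F2 : Finset (Fin n) → ℝ := fun A => (1 - 1 / Q) ^ A.card * t2 (X \ A).card with hF2
  have hbound : ∀ A ∈ X.powerset, f A ≤ ((if A = X then 1 else 0) + (if A = ∅ then 1 else 0) +
      (1 / u) * F1 A + (Q / u) * F2 A) * N := by
    intro A hAX
    rw [mem_powerset] at hAX
    have hF1n : 0 ≤ F1 A := sum_nonneg fun E _ =>
      mul_nonneg (mul_nonneg (pow_nonneg (by positivity) _) (pow_nonneg hQinv _)) (ht1n _)
    have hF2n : 0 ≤ F2 A := mul_nonneg (pow_nonneg hQinv _) (ht2n _)
    have hfN : f A ≤ N := by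
      simp only [hf, hN]
      exact_mod_cast card_le_univ _
    have hnn : 0 ≤ (1 / u) * F1 A + (Q / u) * F2 A := by positivity
    by_cases h1 : A = X
    · rw [if_pos h1]
      have h0 : (0:ℝ) ≤ (if A = ∅ then 1 else 0) := by split_ifs <;> norm_num
      refine hfN.trans ?_
      nlinarith
    by_cases h2 : A = ∅
    · rw [if_pos h2, if_neg h1]
      refine hfN.trans ?_
      nlinarith
    rw [if_neg h1, if_neg h2, zero_add, zero_add]
    have hss : A ⊂ X := lt_of_le_of_ne hAX h1
    have hc1 : A.card < r := by rw [← hX]; exact card_lt_card hss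
    have hc2 : 0 < A.card := card_pos.2 (nonempty_iff_ne_empty.2 h2)
    have hc3 : (X \ A).card = r - A.card := by rw [card_sdiff_of_subset hAX, hX]
    have hB : X \ A ≠ ∅ := by
      intro h
      rw [← card_eq_zero] at h
      omega
    have := card_cond_le (R := R) ht (fun j hj => hH j hj) h2 hB hc1 (by omega)
    refine this.trans (le_of_eq ?_)
    congr 1
    have e1 : F1 A = ∑ E ∈ A.powerset, (1 / Q) ^ E.card *
        (1 - 1 / Q) ^ (A.card - E.card) * t E.card := by
      refine sum_congr rfl fun E hE => ?_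
      have : E.card ≤ A.card := card_le_card (mem_powerset.1 hE)
      simp only [ht1]
      rw [if_pos (by omega)]
    have e2 : F2 A = (1 - 1 / Q) ^ A.card * t (X \ A).card := by
      simp only [hF2, ht2]
      rw [if_pos ⟨by omega, by omega⟩]
    rw [e1, e2]
    ring
  have hstep : ∑ A ∈ X.powerset, a ^ A.card * b ^ (X.card - A.card) * f A ≤
      ∑ A ∈ X.powerset, a ^ A.card * b ^ (X.card - A.card) *
        (((if A = X then 1 else 0) + (if A = ∅ then 1 else 0) +
      (1 / u) * F1 A + (Q / u) * F2 A) * N) := by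
    refine sum_le_sum fun A hA => ?_
    exact mul_le_mul_of_nonneg_left (hbound A hA) (mul_nonneg (pow_nonneg ha _) (pow_nonneg hb _))
  refine hstep.trans (le_of_eq ?_)
  have hsplit : ∑ A ∈ X.powerset, a ^ A.card * b ^ (X.card - A.card) *
        (((if A = X then 1 else 0) + (if A = ∅ then 1 else 0) +
      (1 / u) * F1 A + (Q / u) * F2 A) * N) =
      (∑ A ∈ X.powerset, a ^ A.card * b ^ (X.card - A.card) * (if A = X then 1 else 0) +
       ∑ A ∈ X.powerset, a ^ A.card * b ^ (X.card - A.card) * (if A = ∅ then 1 else 0) +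
       (1 / u) * ∑ A ∈ X.powerset, a ^ A.card * b ^ (X.card - A.card) * F1 A +
       (Q / u) * ∑ A ∈ X.powerset, a ^ A.card * b ^ (X.card - A.card) * F2 A) * N := by
    rw [mul_sum, mul_sum, ← sum_add_distrib, ← sum_add_distrib, ← sum_add_distrib, sum_mul]
    refine sum_congr rfl fun A _ => ?_
    ring
  rw [hsplit]
  congr 1
  have s1 : ∑ A ∈ X.powerset, a ^ A.card * b ^ (X.card - A.card) *
      (if A = X then (1:ℝ) else 0) = a ^ r := by
    rw [Finset.sum_eq_single X]
    · rw [if_pos rfl, hX]; simp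
    · intro A _ hne
      rw [if_neg hne, mul_zero]
    · intro h
      exact absurd (mem_powerset.2 (Subset.refl X)) h
  have s2 : ∑ A ∈ X.powerset, a ^ A.card * b ^ (X.card - A.card) *
      (if A = ∅ then (1:ℝ) else 0) = b ^ r := by
    rw [Finset.sum_eq_single ∅]
    · rw [if_pos rfl, hX]; simp
    · intro A _ hne
      rw [if_neg hne, mul_zero]
    · intro h
      exact absurd (mem_powerset.2 (empty_subset X)) h
  have s3 : ∑ A ∈ X.powerset, a ^ A.card * b ^ (X.card - A.card) * F1 A =
      ∑ j ∈ range r, (r.choose j : ℝ) * ((a / Q) ^ j * (1 - a / Q) ^ (r - j) * t j) := by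
    simp only [hF1]
    rw [sum_nested X (fun E => t1 E.card) a b (1 / Q) (1 - 1 / Q)]
    have e1 : a * (1 / Q) = a / Q := by ring
    have e2 : a * (1 - 1 / Q) + b = 1 - a / Q := by
      have : b = 1 - a := by linarith
      rw [this]; ring
    rw [e1, e2, Finset.sum_powerset_apply_card
      (fun j => (a / Q) ^ j * (1 - a / Q) ^ (X.card - j) * t1 j), hX, sum_range_succ]
    have e3 : t1 r = 0 := by simp [ht1]
    rw [e3, mul_zero, smul_zero, add_zero]
    refine sum_congr rfl fun j hj => ?_
    have e4 : t1 j = t j := by simp only [ht1]; rw [if_pos (mem_range.1 hj)]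
    rw [e4, nsmul_eq_mul]
  have s4 : ∑ A ∈ X.powerset, a ^ A.card * b ^ (X.card - A.card) * F2 A =
      ∑ j ∈ Ico 1 r, (r.choose j : ℝ) * (b ^ j * (a * (1 - 1 / Q)) ^ (r - j) * t j) := by
    have e1 : ∑ A ∈ X.powerset, a ^ A.card * b ^ (X.card - A.card) * F2 A =
        ∑ A ∈ X.powerset, (fun j => b ^ (r - j) * (a * (1 - 1 / Q)) ^ j * t2 (r - j)) A.card := by
      refine sum_congr rfl fun A hA => ?_
      have : (X \ A).card = r - A.card := by
        rw [card_sdiff_of_subset (mem_powerset.1 hA), hX]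
      simp only [hF2, this, hX, mul_pow]
      ring
    rw [e1, Finset.sum_powerset_apply_card
      (fun j => b ^ (r - j) * (a * (1 - 1 / Q)) ^ j * t2 (r - j)), hX]
    simp only [nsmul_eq_mul]
    rw [← Finset.sum_range_reflect]
    have e2 : ∀ j ∈ range (r + 1), ((r.choose (r + 1 - 1 - j) : ℕ) : ℝ) *
        (b ^ (r - (r + 1 - 1 - j)) * (a * (1 - 1 / Q)) ^ (r + 1 - 1 - j) *
          t2 (r - (r + 1 - 1 - j))) =
        (r.choose j : ℝ) * (b ^ j * (a * (1 - 1 / Q)) ^ (r - j) * t2 j) := by
      intro j hj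
      have hj' : j ≤ r := by have := mem_range.1 hj; omega
      have e3 : r + 1 - 1 - j = r - j := by omega
      have e4 : r - (r - j) = j := by omega
      rw [e3, e4, Nat.choose_symm hj']
    rw [sum_congr rfl e2]
    have e5 : Ico 1 r ⊆ range (r + 1) := by
      intro j hj
      rw [mem_Ico] at hj
      rw [mem_range]; omega
    rw [← Finset.sum_subset e5]
    · refine sum_congr rfl fun j hj => ?_
      rw [mem_Ico] at hj
      have : t2 j = t j := by simp only [ht2]; rw [if_pos hj]
      rw [this]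
    · intro j _ hj
      rw [mem_Ico] at hj
      have : t2 j = 0 := by simp only [ht2]; rw [if_neg hj]
      rw [this, mul_zero, mul_zero]
  rw [s1, s2, s3, s4]

end Rec

end Pool.Agent.Helper4.Turan
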