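import Pool.Agent.Helper4.Dep

/-!
Rings over which `k+1` vectors of length `k` have a unimodular dependency.
-/

namespace Pool.Agent.Helper4.Turan

open Finset
open scoped Classical

set_option linter.unusedSectionVars false

/-- any `k+1` vectors have a unimodular linear dependency in the first `k` coordinates -/
def Star (R : Type) [CommRing R] [Fintype R] : Prop :=
  ∀ (n k : ℕ) (A : Finset (Fin n)) (w : Fin n → Fin n → R), A.card = k + 1 →
    ∃ l : Fin n → R, Unimod l ∧ (∀ x, x ∉ A → l x = 0) ∧ Dep k w l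

lemma star_field (K : Type) [Field K] [Fintype K] : Star K := by
  intro n k A w hA
  let v : A → (Fin k → K) := fun x i => if h : (i : ℕ) < n then w x ⟨i, h⟩ else 0
  have hnot : ¬ LinearIndependent K v := by
    intro hli
    have h1 := hli.fintype_card_le_finrank
    simp at h1
    omega
  rw [Fintype.not_linearIndependent_iff] at hnot
  obtain ⟨g, hg, x0, hx0⟩ := hnot
  refine ⟨fun x => if hx : x ∈ A then g ⟨x, hx⟩ else 0, ?_, ?_, ?_⟩
  · refine ⟨Pi.single x0.1 (g x0)⁻¹, ?_⟩
    rw [Finset.sum_eq_single x0.1]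
    · simp [hx0]
    · intro b _ hb
      simp [Pi.single_eq_of_ne hb]
    · intro h; exact absurd (mem_univ _) h
  · intro x hx
    simp [hx]
  · intro i hi
    have h2 := congrFun hg ⟨i, hi⟩
    simp only [Finset.sum_apply, Pi.smul_apply, smul_eq_mul, Pi.zero_apply] at h2
    have h3 : ∀ x : A, g x * v x ⟨i, hi⟩ = g x * w x i := by
      intro x
      simp only [v]
      rw [dif_pos i.2]
    rw [sum_congr rfl (fun x _ => h3 x)] at h2
    refine Eq.trans ?_ h2
    rw [← Finset.sum_subset (subset_univ A)]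
    · rw [← Finset.sum_coe_sort A]
      refine sum_congr rfl fun x _ => ?_
      simp
    · intro x _ hx
      simp [hx]

lemma Star.prod {R S : Type} [CommRing R] [Fintype R] [CommRing S] [Fintype S] (hR : Star R)
    (hS : Star S) : Star (R × S) := by
  intro n k A w hA
  obtain ⟨l1, ⟨c1, hc1⟩, hz1, hd1⟩ := hR n k A (fun x i => (w x i).1) hA
  obtain ⟨l2, ⟨c2, hc2⟩, hz2, hd2⟩ := hS n k A (fun x i => (w x i).2) hA
  refine ⟨fun x => (l1 x, l2 x), ⟨fun x => (c1 x, c2 x), ?_⟩, ?_, ?_⟩
  · refine Prod.ext ?_ ?_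
    · rw [Prod.fst_sum]; simpa using hc1
    · rw [Prod.snd_sum]; simpa using hc2
  · intro x hx
    simp [hz1 x hx, hz2 x hx]
  · intro i hi
    refine Prod.ext ?_ ?_
    · rw [Prod.fst_sum]; simpa using hd1 i hi
    · rw [Prod.snd_sum]; simpa using hd2 i hi

end Pool.Agent.Helper4.Turan
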